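import Mathlib
import Pool.Agent.W_4d3d39_h4.D

/-! From the core statement to the smallness of the radical. -/

set_option autoImplicit false

namespace XYZ4

/-- A class of primes of bounded exponents with small defect forces `4 a b = c ^ 2`. -/
def Core : Prop := ∀ (B : ℕ) (rho : ℝ), 0 ≤ rho → ∃ c1 : ℕ, ∀ a b c k g : ℕ, Prim a b c k g →
  c1 ≤ c → ∀ be ga E : ℕ, 1 ≤ ga → be ≤ B → b * be + E = c * ga →
    (E : ℝ) * Real.log c ≤ rho * c → 4 * (a * b) = c ^ 2

theorem rad_side {a b c k g B : ℕ} {rho d' : ℝ} (h : Prim a b c k g) (hd' : 0 < d')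
    (hrho : rho = Real.log 2 / d')
    (hK : ∀ be ga E : ℕ, 1 ≤ ga → be ≤ B → b * be + E = c * ga →
      (E : ℝ) * Real.log c ≤ rho * c → False) :
    ∑ q ∈ b.primeFactors, Real.log q ≤ B ^ 2 * (d' * Real.log c) + Real.log c / (B + 1) := by
  classical
  have hb := h.hb
  have hbc := h.hbc
  have hlc : 0 ≤ Real.log c := Real.log_natCast_nonneg c
  -- one type
  have htype : ∀ be ga : ℕ, 1 ≤ ga → be ≤ B →
      ∑ q ∈ b.primeFactors.filter (fun q => b.factorization q = be ∧ c.factorization q = ga),
        Real.log q ≤ d' * Real.log c := by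
    intro be ga hga hbe
    by_contra hcon
    push Not at hcon
    set T := b.primeFactors.filter (fun q => b.factorization q = be ∧ c.factorization q = ga)
      with hT
    have hTne : T.Nonempty := by
      rw [Finset.nonempty_iff_ne_empty]
      intro h0
      rw [h0, Finset.sum_empty] at hcon
      have : 0 ≤ d' * Real.log c := by positivity
      linarith
    have hval : ∀ q ∈ T, k * g.factorization q + b * be = c * ga := by
      intro q hq
      rw [hT, Finset.mem_filter] at hq
      have h1 := (h.fac_b (Nat.prime_of_mem_primeFactors hq.1)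
        (Nat.dvd_of_mem_primeFactors hq.1)).1
      rw [hq.2.1, hq.2.2] at h1
      exact h1
    obtain ⟨q0, hq0⟩ := hTne
    have hE := hval q0 hq0
    set E := k * g.factorization q0 with hEdef
    have hEq : ∀ q ∈ T, k * g.factorization q = E := by
      intro q hq
      have := hval q hq
      omega
    have h1 : (E : ℝ) * ∑ q ∈ T, Real.log q ≤ k * Real.log g := by
      calc (E : ℝ) * ∑ q ∈ T, Real.log q = ∑ q ∈ T, (k : ℝ) * ((g.factorization q : ℝ) *
            Real.log q) := by
            rw [Finset.mul_sum]
            refine Finset.sum_congr rfl fun q hq => ?_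
            rw [← hEq q hq]
            push_cast
            ring
        _ = k * ∑ q ∈ T, (g.factorization q : ℝ) * Real.log q := by rw [Finset.mul_sum]
        _ ≤ k * Real.log g := mul_le_mul_of_nonneg_left (sum_fac_log_le g T) (Nat.cast_nonneg _)
    have h2 := h.log_g
    have h3 : (E : ℝ) * (d' * Real.log c) ≤ (E : ℝ) * ∑ q ∈ T, Real.log q :=
      mul_le_mul_of_nonneg_left hcon.le (Nat.cast_nonneg _)
    have h4 : (E : ℝ) * Real.log c ≤ rho * c := by
      rw [hrho]
      rw [div_mul_eq_mul_div, le_div_iff₀ hd']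
      nlinarith
    exact hK be ga E hga hbe (by omega) h4
  -- split the primes
  have hsplit : ∑ q ∈ b.primeFactors, Real.log q =
      ∑ q ∈ b.primeFactors.filter (fun q => b.factorization q ≤ B), Real.log q +
      ∑ q ∈ b.primeFactors.filter (fun q => ¬ b.factorization q ≤ B), Real.log q :=
    (Finset.sum_filter_add_sum_filter_not _ _ _).symm
  have hsmall : ∑ q ∈ b.primeFactors.filter (fun q => b.factorization q ≤ B), Real.log q ≤
      B ^ 2 * (d' * Real.log c) := by
    have hmaps : ∀ q ∈ b.primeFactors.filter (fun q => b.factorization q ≤ B),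
        (b.factorization q, c.factorization q) ∈ Finset.Icc 1 B ×ˢ Finset.Icc 1 B := by
      intro q hq
      rw [Finset.mem_filter] at hq
      have h1 := h.fac_b (Nat.prime_of_mem_primeFactors hq.1) (Nat.dvd_of_mem_primeFactors hq.1)
      rw [Finset.mem_product, Finset.mem_Icc, Finset.mem_Icc]
      simp only
      omega
    rw [← Finset.sum_fiberwise_of_maps_to hmaps]
    calc _ ≤ ∑ w ∈ Finset.Icc 1 B ×ˢ Finset.Icc 1 B, ∑ q ∈ b.primeFactors.filter
          (fun q => b.factorization q = w.1 ∧ c.factorization q = w.2), Real.log q := by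
          refine Finset.sum_le_sum fun w _ => ?_
          apply Finset.sum_le_sum_of_subset_of_nonneg
          · intro q hq
            rw [Finset.mem_filter, Finset.mem_filter] at hq
            rw [Finset.mem_filter]
            exact ⟨hq.1.1, congrArg Prod.fst hq.2, congrArg Prod.snd hq.2⟩
          · intro q _ _
            exact Real.log_natCast_nonneg q
      _ ≤ ∑ w ∈ Finset.Icc 1 B ×ˢ Finset.Icc 1 B, d' * Real.log c := by
          refine Finset.sum_le_sum fun w hw => ?_
          rw [Finset.mem_product, Finset.mem_Icc, Finset.mem_Icc] at hw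
          exact htype w.1 w.2 hw.2.1 hw.1.2
      _ = B ^ 2 * (d' * Real.log c) := by
          rw [Finset.sum_const, Finset.card_product, Nat.card_Icc, nsmul_eq_mul]
          push_cast
          ring
  have hlarge : ∑ q ∈ b.primeFactors.filter (fun q => ¬ b.factorization q ≤ B), Real.log q ≤
      Real.log c / (B + 1) := by
    rw [le_div_iff₀ (by positivity)]
    calc (∑ q ∈ b.primeFactors.filter (fun q => ¬ b.factorization q ≤ B), Real.log q) * (B + 1)
        = ∑ q ∈ b.primeFactors.filter (fun q => ¬ b.factorization q ≤ B),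
            ((B : ℝ) + 1) * Real.log q := by
          rw [Finset.sum_mul]
          exact Finset.sum_congr rfl fun q _ => mul_comm _ _
      _ ≤ ∑ q ∈ b.primeFactors.filter (fun q => ¬ b.factorization q ≤ B),
            (b.factorization q : ℝ) * Real.log q := by
          refine Finset.sum_le_sum fun q hq => ?_
          rw [Finset.mem_filter] at hq
          apply mul_le_mul_of_nonneg_right _ (Real.log_natCast_nonneg q)
          have : B + 1 ≤ b.factorization q := by omega
          exact_mod_cast this
      _ ≤ Real.log b := sum_fac_log_le b _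
      _ ≤ Real.log c := Real.log_le_log (by positivity) (by exact_mod_cast hbc.le)
  rw [hsplit]
  exact add_le_add hsmall hlarge

theorem rad_of_core (hC : Core) (d : ℝ) (hd : 0 < d) : ∃ c2 : ℕ, ∀ a b c k g : ℕ,
    Prim a b c k g → c2 ≤ c → 4 * (a * b) ≠ c ^ 2 →
    ∏ p ∈ c.primeFactors, (p : ℝ) < (c : ℝ) ^ d := by
  classical
  set B : ℕ := ⌈4 / d⌉₊ with hB
  have hB1 : (4 / d : ℝ) ≤ B := Nat.le_ceil _
  have hB0 : (0 : ℝ) < B := lt_of_lt_of_le (by positivity) hB1
  set d' : ℝ := d / (8 * B ^ 2) with hd'
  have hd'0 : 0 < d' := by positivity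
  obtain ⟨c1, hc1⟩ := hC B (Real.log 2 / d') (div_nonneg (Real.log_nonneg (by norm_num)) hd'0.le)
  refine ⟨c1, fun a b c k g h hc hne => ?_⟩
  have ha := h.ha
  have hb := h.hb
  have hac := h.hac
  have hc0 : 0 < c := by omega
  have hcr : (1 : ℝ) < c := by exact_mod_cast (by omega : 1 < c)
  have hlc : 0 < Real.log c := Real.log_pos hcr
  have hsb := rad_side (B := B) h hd'0 rfl
    (fun be ga E h1 h2 h3 h4 => hne (hc1 a b c k g h hc be ga E h1 h2 h3 h4))
  have hsa := rad_side (B := B) h.symm hd'0 rfl
    (fun be ga E h1 h2 h3 h4 => hne (by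
      have h5 := hc1 b a c k g h.symm hc be ga E h1 h2 h3 h4
      rw [mul_comm a b]; exact h5))
  have h1 : (B : ℝ) ^ 2 * (d' * Real.log c) = d / 8 * Real.log c := by
    rw [hd']; field_simp
  have h2 : Real.log c / (B + 1) ≤ d / 4 * Real.log c := by
    rw [div_le_iff₀ (by positivity)]
    have h3 : 1 ≤ d / 4 * (B + 1) := by
      rw [div_le_iff₀ hd] at hB1
      nlinarith
    nlinarith
  have h3 : ∑ p ∈ c.primeFactors, Real.log p ≤
      ∑ p ∈ a.primeFactors, Real.log p + ∑ p ∈ b.primeFactors, Real.log p := by
    have hd2 : Disjoint a.primeFactors b.primeFactors := h.hcop.disjoint_primeFactors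
    rw [← Finset.sum_union hd2]
    apply Finset.sum_le_sum_of_subset_of_nonneg
    · intro p hp
      have hpp := Nat.prime_of_mem_primeFactors hp
      have hpc := Nat.dvd_of_mem_primeFactors hp
      rcases (Nat.Prime.dvd_mul hpp).1 (hpc.trans h.dvd_mul) with h4 | h4
      · exact Finset.mem_union_left _ (Nat.mem_primeFactors.mpr ⟨hpp, h4, by omega⟩)
      · exact Finset.mem_union_right _ (Nat.mem_primeFactors.mpr ⟨hpp, h4, by omega⟩)
    · intro p _ _
      exact Real.log_natCast_nonneg p
  have h4 : Real.log (∏ p ∈ c.primeFactors, (p : ℝ)) < d * Real.log c := by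
    rw [Real.log_prod (fun p hp => by
      have := (Nat.prime_of_mem_primeFactors hp).pos
      positivity)]
    have h5 : 0 < d * Real.log c := by positivity
    nlinarith
  have hpos : (0 : ℝ) < ∏ p ∈ c.primeFactors, (p : ℝ) :=
    Finset.prod_pos fun p hp => by
      have := (Nat.prime_of_mem_primeFactors hp).pos
      positivity
  rw [← Real.exp_log hpos, Real.rpow_def_of_pos (by linarith)]
  apply Real.exp_lt_exp.mpr
  linarith

end XYZ4
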