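import Mathlib
import Pool.Agent.W_4d3d39_h4.C
import Pool.Agent.W_4d3d39_h43.RadC

/-! Transfer to `(x, y, z)` and the consequence of a weak form of the four term abc conjecture. -/

set_option autoImplicit false

namespace XYZ4

/-- `z` is bounded in terms of `c` -/
theorem Prim.z_le {a b c k g : ℕ} (h : Prim a b c k g) : c * g ≤ c * 2 ^ c := by
  have h1 := h.lt_two_pow
  have h2 : g ≤ g ^ k := Nat.le_self_pow (by have := h.hk; omega) g
  exact Nat.mul_le_mul_left _ (by omega)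

/-- primes of `g` divide `c` -/
theorem Prim.prime_g {a b c k g : ℕ} (h : Prim a b c k g) {p : ℕ} (hp : p.Prime) (hpg : p ∣ g) :
    p ∣ c := by
  by_contra hc
  have h1 := h.val p
  rw [Nat.factorization_eq_zero_of_not_dvd hc, mul_zero] at h1
  have h2 : 0 < g.factorization p := hp.factorization_pos_of_dvd (by have := h.hg; omega) hpg
  have h3 : 0 < k * g.factorization p := Nat.mul_pos h.hk h2
  omega

theorem Prim.primeFactors_z {a b c k g : ℕ} (h : Prim a b c k g) :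
    (c * g).primeFactors = c.primeFactors := by
  have hc : c ≠ 0 := by have := h.ha; have := h.hac; omega
  have hg : g ≠ 0 := by have := h.hg; omega
  rw [Nat.primeFactors_mul hc hg]
  apply Finset.union_eq_left.mpr
  intro p hp
  exact Nat.mem_primeFactors.mpr ⟨Nat.prime_of_mem_primeFactors hp,
    h.prime_g (Nat.prime_of_mem_primeFactors hp) (Nat.dvd_of_mem_primeFactors hp), hc⟩

theorem four_ne {a b c g : ℕ} (h : 4 * ((a * g) * (b * g)) ≠ (c * g) ^ 2) :
    4 * (a * b) ≠ c ^ 2 := by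
  intro h1
  apply h
  calc 4 * ((a * g) * (b * g)) = (4 * (a * b)) * g ^ 2 := by ring
    _ = (c * g) ^ 2 := by rw [h1]; ring

/-- For every `d > 0` only finitely many nontrivial solutions with `4 x y ≠ z ^ 2` have
`rad z ≥ (log z) ^ d`. -/
theorem small_rad_xyz (hC : Core) (d : ℝ) (hd : 0 < d) :
    {v : ℕ × ℕ × ℕ | 2 ≤ v.1 ∧ 2 ≤ v.2.1 ∧ v.1 ^ v.1 * v.2.1 ^ v.2.1 = v.2.2 ^ v.2.2 ∧
      4 * (v.1 * v.2.1) ≠ v.2.2 ^ 2 ∧
      (Real.log v.2.2) ^ d ≤ ∏ p ∈ v.2.2.primeFactors, (p : ℝ)}.Finite := by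
  obtain ⟨c2, hc2⟩ := rad_of_core hC (d / 4) (by positivity)
  refine Set.Finite.subset (Sol_finite (max 20 (c2 * 2 ^ c2))) ?_
  rintro ⟨x, y, z⟩ ⟨hx, hy, heq, hne, hrad⟩
  simp only at hx hy heq hne hrad
  refine ⟨hx, hy, heq, ?_⟩
  simp only
  obtain ⟨a, b, c, k, g, h, rfl, rfl, rfl⟩ := exists_prim hx hy heq
  by_contra hlt
  push Not at hlt
  rw [max_lt_iff] at hlt
  obtain ⟨hz1, hz2⟩ := hlt
  have hcc : c2 ≤ c := by
    by_contra hcon
    push Not at hcon
    have h1 := h.z_le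
    have h2 : c * 2 ^ c ≤ c2 * 2 ^ c2 :=
      Nat.mul_le_mul hcon.le (Nat.pow_le_pow_right (by norm_num) hcon.le)
    omega
  have h1 := hc2 a b c k g h hcc (four_ne hne)
  rw [h.primeFactors_z] at hrad
  have hz20 : (20 : ℝ) < ((c * g : ℕ) : ℝ) := by exact_mod_cast hz1
  set lz := Real.log ((c * g : ℕ) : ℝ) with hlz
  have hl2 : 0.6931471803 < Real.log 2 := Real.log_two_gt_d9
  have hlz1 : 2.5 < lz := by
    have h3 : Real.log 16 < lz := Real.log_lt_log (by norm_num) (by linarith)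
    have h4 : Real.log 16 = 4 * Real.log 2 := by
      rw [show (16 : ℝ) = 2 ^ 4 by norm_num, Real.log_pow]; norm_num
    rw [h4] at h3
    linarith
  have hc3 : (c : ℝ) ≤ 3 * (lz / Real.log 2) ^ 2 := by
    have h3 := h.c_le
    have h4 : (Nat.log 2 (c * g) : ℝ) ≤ lz / Real.log 2 := by
      have := Real.natLog_le_logb (c * g) 2
      rwa [Real.logb] at this
    have h5 : (Nat.log 2 (c * g) : ℝ) ^ 2 ≤ (lz / Real.log 2) ^ 2 :=
      pow_le_pow_left₀ (Nat.cast_nonneg _) h4 2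
    have h6 : (c : ℝ) ≤ 3 * (Nat.log 2 (c * g) : ℝ) ^ 2 := by exact_mod_cast h3
    linarith
  have hc4 : (c : ℝ) ≤ lz ^ 4 := by
    have h7 : 3 * (lz / Real.log 2) ^ 2 ≤ lz ^ 4 := by
      rw [div_pow, mul_div_assoc', div_le_iff₀ (by positivity)]
      have h8 : (0.48 : ℝ) ≤ Real.log 2 ^ 2 := by nlinarith
      have h9 : (6.25 : ℝ) ≤ lz ^ 2 := by nlinarith
      have h10 : (3 : ℝ) ≤ lz ^ 2 * Real.log 2 ^ 2 := by
        calc (3 : ℝ) = 6.25 * 0.48 := by norm_num
          _ ≤ lz ^ 2 * Real.log 2 ^ 2 := mul_le_mul h9 h8 (by norm_num) (by positivity)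
      have h11 : 3 * lz ^ 2 ≤ (lz ^ 2 * Real.log 2 ^ 2) * lz ^ 2 :=
        mul_le_mul_of_nonneg_right h10 (by positivity)
      calc 3 * lz ^ 2 ≤ (lz ^ 2 * Real.log 2 ^ 2) * lz ^ 2 := h11
        _ = lz ^ 4 * Real.log 2 ^ 2 := by ring
    linarith
  have h5 : (c : ℝ) ^ (d / 4) ≤ lz ^ d := by
    calc (c : ℝ) ^ (d / 4) ≤ (lz ^ 4) ^ (d / 4) :=
          Real.rpow_le_rpow (Nat.cast_nonneg _) hc4 (by positivity)
      _ = lz ^ d := by
          rw [← Real.rpow_natCast, ← Real.rpow_mul (by linarith)]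
          congr 1
          push_cast
          ring
  linarith

/-- A weak (polynomial) form of the abc conjecture for four terms: for coprime `a + b = c + k`
without vanishing subsum, `c` is bounded by a polynomial in the radical of `a b c k`. -/
def WeakAbc4 : Prop := ∃ K : ℕ, ∀ a b c k : ℕ, 0 < a → 0 < b → 0 < c → 0 < k →
  a + b = c + k → Nat.Coprime a b → a ≠ c → a ≠ k →
    c ≤ K * (∏ p ∈ (a * b * c * k).primeFactors, p) ^ K

theorem weak_aux (K : ℕ) : ∃ c3 : ℕ, ∀ c : ℕ, c3 ≤ c →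
    (K : ℝ) * ((c : ℝ) ^ (1 / (2 * (K : ℝ))) * (4 * (Real.log c / Real.log 2))) ^ K < c := by
  rcases Nat.eq_zero_or_pos K with h0 | hK
  · subst h0
    exact ⟨1, fun c hc => by
      have h0 : 0 < c := by omega
      simpa using h0⟩
  have hKr : (0 : ℝ) < K := by exact_mod_cast hK
  have hl2 : 0 < Real.log 2 := Real.log_pos one_lt_two
  have h1 := (isLittleO_log_rpow_rpow_atTop (K : ℝ) (show (0 : ℝ) < 1 / 2 by norm_num)).def
    (show (0 : ℝ) < 1 / (2 * K * (4 / Real.log 2) ^ K) by positivity)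
  obtain ⟨x0, hx0⟩ := Filter.eventually_atTop.1 h1
  refine ⟨⌈x0⌉₊ + 2, fun c hc => ?_⟩
  have hcx : x0 ≤ c := (Nat.le_ceil x0).trans (by exact_mod_cast (by omega : ⌈x0⌉₊ ≤ c))
  have h2 := hx0 c hcx
  have hc1 : (1 : ℝ) < c := by exact_mod_cast (by omega : 1 < c)
  have hlc : 0 < Real.log c := Real.log_pos hc1
  have hc0 : (0 : ℝ) < c := by linarith
  rw [Real.norm_of_nonneg (by positivity), Real.norm_of_nonneg (by positivity),
    Real.rpow_natCast] at h2
  have h3 : ((c : ℝ) ^ (1 / (2 * (K : ℝ)))) ^ K = (c : ℝ) ^ (1 / 2 : ℝ) := by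
    rw [← Real.rpow_natCast, ← Real.rpow_mul hc0.le]
    congr 1
    field_simp
  have h4 : (c : ℝ) ^ (1 / 2 : ℝ) * (c : ℝ) ^ (1 / 2 : ℝ) = c := by
    rw [← Real.rpow_add hc0]; norm_num
  have h5 : (K : ℝ) * ((c : ℝ) ^ (1 / (2 * (K : ℝ))) * (4 * (Real.log c / Real.log 2))) ^ K =
      (K : ℝ) * (4 / Real.log 2) ^ K * ((c : ℝ) ^ (1 / 2 : ℝ) * Real.log c ^ K) := by
    rw [mul_pow, h3]
    have h6 : 4 * (Real.log c / Real.log 2) = (4 / Real.log 2) * Real.log c := by ring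
    rw [h6, mul_pow]
    ring
  rw [h5]
  have hs : 0 < (c : ℝ) ^ (1 / 2 : ℝ) := by positivity
  calc (K : ℝ) * (4 / Real.log 2) ^ K * ((c : ℝ) ^ (1 / 2 : ℝ) * Real.log c ^ K)
      ≤ (K : ℝ) * (4 / Real.log 2) ^ K * ((c : ℝ) ^ (1 / 2 : ℝ) *
        (1 / (2 * K * (4 / Real.log 2) ^ K) * (c : ℝ) ^ (1 / 2 : ℝ))) := by
        gcongr
    _ = (1 / 2) * ((c : ℝ) ^ (1 / 2 : ℝ) * (c : ℝ) ^ (1 / 2 : ℝ)) := by
        field_simp
    _ = (1 / 2) * c := by rw [h4]
    _ < c := by linarith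

/-- Under the weak four term abc conjecture only finitely many nontrivial solutions have
`4 x y ≠ z ^ 2`. -/
theorem finite_of_weak_abc (hC : Core) (hW : WeakAbc4) :
    {v : ℕ × ℕ × ℕ | 2 ≤ v.1 ∧ 2 ≤ v.2.1 ∧ v.1 ^ v.1 * v.2.1 ^ v.2.1 = v.2.2 ^ v.2.2 ∧
      4 * (v.1 * v.2.1) ≠ v.2.2 ^ 2}.Finite := by
  obtain ⟨K, hK⟩ := hW
  obtain ⟨c2, hc2⟩ := rad_of_core hC (1 / (2 * ((K + 1 : ℕ) : ℝ))) (by positivity)
  obtain ⟨c1, hc1⟩ := exists_c0
  obtain ⟨c3, hc3⟩ := weak_aux (K + 1)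
  set M := max c2 (max c1 c3) with hM
  refine Set.Finite.subset (Sol_finite (M * 2 ^ M)) ?_
  rintro ⟨x, y, z⟩ ⟨hx, hy, heq, hne⟩
  simp only at hx hy heq hne
  refine ⟨hx, hy, heq, ?_⟩
  simp only
  obtain ⟨a, b, c, k, g, h, rfl, rfl, rfl⟩ := exists_prim hx hy heq
  by_contra hlt
  push Not at hlt
  have hMc : M ≤ c := by
    by_contra hcon
    push Not at hcon
    have h1 := h.z_le
    have h2 : c * 2 ^ c ≤ M * 2 ^ M :=
      Nat.mul_le_mul hcon.le (Nat.pow_le_pow_right (by norm_num) hcon.le)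
    omega
  have hcc2 : c2 ≤ c := (le_max_left _ _).trans hMc
  have hcc1 : c1 ≤ c := ((le_max_left _ _).trans (le_max_right _ _)).trans hMc
  have hcc3 : c3 ≤ c := ((le_max_right _ _).trans (le_max_right _ _)).trans hMc
  have h1 := hc2 a b c k g h hcc2 (four_ne hne)
  have hk := h.k_lt (hc1 c hcc1)
  have ha := h.ha
  have hb := h.hb
  have hac := h.hac
  have hbc := h.hbc
  have hk0 := h.hk
  have hsum := h.hsum
  have hc0 : 0 < c := by omega
  have h2 := hK a b c k (by omega) (by omega) hc0 hk0 hsum h.hcop (by omega) (by omega)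
  -- the radical
  have h3 : (a * b * c * k).primeFactors ⊆ c.primeFactors ∪ k.primeFactors := by
    intro p hp
    have hpp := Nat.prime_of_mem_primeFactors hp
    have hpd := Nat.dvd_of_mem_primeFactors hp
    rw [Finset.mem_union]
    rcases (Nat.Prime.dvd_mul hpp).1 hpd with h4 | h4
    · left
      refine Nat.mem_primeFactors.mpr ⟨hpp, ?_, by omega⟩
      rcases (Nat.Prime.dvd_mul hpp).1 h4 with h5 | h5
      · rcases (Nat.Prime.dvd_mul hpp).1 h5 with h6 | h6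
        · by_contra hcon
          have h7 := (h.fac_a hpp h6).2.1
          rw [Nat.factorization_eq_zero_of_not_dvd hcon] at h7
          omega
        · by_contra hcon
          have h7 := (h.fac_b hpp h6).2.1
          rw [Nat.factorization_eq_zero_of_not_dvd hcon] at h7
          omega
      · exact h5
    · right
      exact Nat.mem_primeFactors.mpr ⟨hpp, h4, by omega⟩
  have hge1 : ∀ (s : Finset ℕ), (∀ p ∈ s, p.Prime) → 1 ≤ ∏ p ∈ s, p := by
    intro s hs
    have : 0 < ∏ p ∈ s, p := Finset.prod_pos fun p hp => (hs p hp).pos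
    exact this
  have h4 : ∏ p ∈ (a * b * c * k).primeFactors, p ≤ (∏ p ∈ c.primeFactors, p) * k := by
    calc ∏ p ∈ (a * b * c * k).primeFactors, p ≤ ∏ p ∈ c.primeFactors ∪ k.primeFactors, p := by
          apply Finset.prod_le_prod_of_subset_of_one_le' h3
          intro p hp _
          rcases Finset.mem_union.mp hp with h5 | h5
          · exact (Nat.prime_of_mem_primeFactors h5).one_lt.le
          · exact (Nat.prime_of_mem_primeFactors h5).one_lt.le
      _ ≤ (∏ p ∈ c.primeFactors, p) * ∏ p ∈ k.primeFactors, p := by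
          rw [← Finset.prod_union_inter]
          exact Nat.le_mul_of_pos_right _ (hge1 _ fun p hp =>
            Nat.prime_of_mem_primeFactors (Finset.mem_of_mem_inter_left hp))
      _ ≤ (∏ p ∈ c.primeFactors, p) * k := by
          apply Nat.mul_le_mul_left
          exact Nat.le_of_dvd hk0 (Nat.prod_primeFactors_dvd k)
  have h5 : (k : ℝ) ≤ 4 * (Real.log c / Real.log 2) := by
    have h6 : (k : ℝ) ≤ 4 * (Nat.log 2 c : ℝ) := by exact_mod_cast hk.le
    have h7 : (Nat.log 2 c : ℝ) ≤ Real.log c / Real.log 2 := by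
      have := Real.natLog_le_logb c 2
      rwa [Real.logb] at this
    linarith
  set R : ℕ := ∏ p ∈ (a * b * c * k).primeFactors, p with hR
  have hR1 : 1 ≤ R := hge1 _ fun p hp => Nat.prime_of_mem_primeFactors hp
  have h6 : c ≤ (K + 1) * R ^ (K + 1) := by
    calc c ≤ K * R ^ K := h2
      _ ≤ (K + 1) * R ^ (K + 1) :=
        Nat.mul_le_mul (by omega) (Nat.pow_le_pow_right hR1 (by omega))
  have h7 : (R : ℝ) ≤ (c : ℝ) ^ (1 / (2 * ((K + 1 : ℕ) : ℝ))) * (4 * (Real.log c / Real.log 2)) := by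
    have h8 : (R : ℝ) ≤ (∏ p ∈ c.primeFactors, (p : ℝ)) * k := by
      have h11 : (∏ p ∈ c.primeFactors, (p : ℝ)) * k =
          (((∏ p ∈ c.primeFactors, p) * k : ℕ) : ℝ) := by
        rw [Nat.cast_mul, Nat.cast_prod]
      rw [h11]
      exact Nat.cast_le.mpr h4
    refine h8.trans (mul_le_mul h1.le h5 (Nat.cast_nonneg _) (by positivity))
  have h8 : (c : ℝ) ≤ ((K + 1 : ℕ) : ℝ) * ((c : ℝ) ^ (1 / (2 * ((K + 1 : ℕ) : ℝ))) *
      (4 * (Real.log c / Real.log 2))) ^ (K + 1) := by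
    have h9 : (c : ℝ) ≤ ((K + 1 : ℕ) : ℝ) * (R : ℝ) ^ (K + 1) := by exact_mod_cast h6
    refine h9.trans ?_
    apply mul_le_mul_of_nonneg_left _ (Nat.cast_nonneg _)
    exact pow_le_pow_left₀ (Nat.cast_nonneg _) h7 _
  have h9 := hc3 c hcc3
  linarith

end XYZ4
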