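import Mathlib
import Pool.Agent.W_MP_4d3d39_h25.Main

/-!
Solutions of `x ^ x * y ^ y = z ^ z`: the reduced triple `x : y : z = a : b : c` and the
divisibility `c ∣ α β + T β + T' α`.
-/

set_option autoImplicit false

namespace Pool.Agent.W_4d3d39_h43

open Pool.Agent.W_MP_4d3d39_h25

/-- `(a t, b t, c t)` is a solution with `gcd (a, b, c) = 1` -/
structure Dat (a b c t : ℕ) : Prop where
  t0 : 0 < t
  a1 : 1 < a
  b1 : 1 < b
  ac : a < c
  bc : b < c
  cab : c < a + b
  gcd1 : ∀ p : ℕ, p.Prime → p ∣ a → p ∣ b → ¬ p ∣ c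
  val : ∀ l : ℕ, a * (a.factorization l + t.factorization l) +
    b * (b.factorization l + t.factorization l) = c * (c.factorization l + t.factorization l)
  pow : a ^ a * b ^ b * t ^ (a + b - c) = c ^ c

theorem Dat.symm {a b c t : ℕ} (h : Dat a b c t) : Dat b a c t where
  t0 := h.t0
  a1 := h.b1
  b1 := h.a1
  ac := h.bc
  bc := h.ac
  cab := by have := h.cab; omega
  gcd1 := fun p hp h1 h2 => h.gcd1 p hp h2 h1
  val := fun l => by rw [← h.val l]; ring
  pow := by rw [← h.pow, mul_comm (b ^ b), add_comm b a]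

/-- every nontrivial solution gives a datum -/
theorem exists_dat {x y z : ℕ} (hx : 1 < x) (hy : 1 < y) (h : x ^ x * y ^ y = z ^ z) :
    ∃ a b c t : ℕ, Dat a b c t ∧ x = a * t ∧ y = b * t ∧ z = c * t := by
  obtain ⟨hxz, hyz, hzxy⟩ := basic hx hy h
  set t := Nat.gcd (Nat.gcd x y) z with ht
  have ht0 : 0 < t := Nat.gcd_pos_of_pos_right _ (by omega)
  have hdx : t ∣ x := (Nat.gcd_dvd_left _ _).trans (Nat.gcd_dvd_left _ _)
  have hdy : t ∣ y := (Nat.gcd_dvd_left _ _).trans (Nat.gcd_dvd_right _ _)
  have hdz : t ∣ z := Nat.gcd_dvd_right _ _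
  obtain ⟨a, ha⟩ := hdx
  obtain ⟨b, hb⟩ := hdy
  obtain ⟨c, hc⟩ := hdz
  rw [mul_comm] at ha hb hc
  have ha0 : 0 < a := by
    rcases Nat.eq_zero_or_pos a with h0 | h0
    · rw [h0, zero_mul] at ha; omega
    · exact h0
  have hb0 : 0 < b := by
    rcases Nat.eq_zero_or_pos b with h0 | h0
    · rw [h0, zero_mul] at hb; omega
    · exact h0
  have hc0 : 0 < c := by
    rcases Nat.eq_zero_or_pos c with h0 | h0
    · rw [h0, zero_mul] at hc; omega
    · exact h0
  have hac : a < c := by
    rw [ha, hc] at hxz
    exact Nat.lt_of_mul_lt_mul_right hxz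
  have hbc : b < c := by
    rw [hb, hc] at hyz
    exact Nat.lt_of_mul_lt_mul_right hyz
  have hcab : c < a + b := by
    rw [ha, hb, hc, ← add_mul] at hzxy
    exact Nat.lt_of_mul_lt_mul_right hzxy
  have ha1 : 1 < a := by omega
  have hb1 : 1 < b := by omega
  refine ⟨a, b, c, t, ⟨ht0, ha1, hb1, hac, hbc, hcab, ?_, ?_, ?_⟩, ha, hb, hc⟩
  · intro p hp h1 h2 h3
    have h4 : p * t ∣ t := by
      conv_rhs => rw [ht]
      refine Nat.dvd_gcd (Nat.dvd_gcd ?_ ?_) ?_
      · rw [ha]; exact Nat.mul_dvd_mul_right h1 t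
      · rw [hb]; exact Nat.mul_dvd_mul_right h2 t
      · rw [hc]; exact Nat.mul_dvd_mul_right h3 t
    have h5 := Nat.le_of_dvd ht0 h4
    have h6 := hp.two_le
    nlinarith
  · intro l
    have h1 := val_eq hx hy h l
    rw [ha, hb, hc, Nat.factorization_mul ha0.ne' ht0.ne', Nat.factorization_mul hb0.ne' ht0.ne',
      Nat.factorization_mul hc0.ne' ht0.ne'] at h1
    simp only [Finsupp.add_apply] at h1
    apply Nat.eq_of_mul_eq_mul_right ht0
    linarith
  · -- take `t`-th roots
    have h1 : (a ^ a * b ^ b * t ^ (a + b)) ^ t = (c ^ c * t ^ c) ^ t := by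
      have h2 : (a * t) ^ (a * t) * (b * t) ^ (b * t) = (c * t) ^ (c * t) := by
        rw [← ha, ← hb, ← hc]; exact h
      calc (a ^ a * b ^ b * t ^ (a + b)) ^ t
          = (a * t) ^ (a * t) * (b * t) ^ (b * t) := by
            rw [mul_pow a t, mul_pow b t, pow_mul a, pow_mul b, pow_mul t a, pow_mul t b, pow_add,
              mul_pow, mul_pow, mul_pow]
            ring
        _ = (c * t) ^ (c * t) := h2
        _ = _ := by
            rw [mul_pow c t, pow_mul c, pow_mul t c, mul_pow]
    have h3 : a ^ a * b ^ b * t ^ (a + b) = c ^ c * t ^ c :=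
      Nat.pow_left_injective ht0.ne' h1
    have h4 : t ^ (a + b) = t ^ (a + b - c) * t ^ c := by
      rw [← pow_add]; congr 1; omega
    rw [h4, ← mul_assoc] at h3
    exact Nat.eq_of_mul_eq_mul_right (pow_pos ht0 c) h3

section

variable {a b c t : ℕ} (h : Dat a b c t)

include h

theorem Dat.c0 : 0 < c := by have := h.a1; have := h.ac; omega

/-- primes of `a` divide `c` -/
theorem Dat.prime_a {p : ℕ} (hp : p.Prime) (hpa : p ∣ a) : p ∣ c := by
  by_contra hc
  have h1 := h.val p
  rw [Nat.factorization_eq_zero_of_not_dvd hc] at h1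
  have h2 : 0 < a.factorization p := hp.factorization_pos_of_dvd (by have := h.a1; omega) hpa
  have h3 := h.cab
  have h4 := h.a1
  have h5 : a * t.factorization p + b * t.factorization p ≥ c * t.factorization p := by
    rw [← add_mul]; exact Nat.mul_le_mul_right _ h3.le
  have h6 : 0 < a * a.factorization p := by positivity
  nlinarith [Nat.zero_le (b * b.factorization p)]

theorem Dat.cop : Nat.Coprime a b := by
  rw [Nat.coprime_iff_gcd_eq_one]
  by_contra hne
  obtain ⟨p, hp, hpd⟩ := Nat.exists_prime_and_dvd hne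
  have h1 := hpd.trans (Nat.gcd_dvd_left a b)
  exact h.gcd1 p hp h1 (hpd.trans (Nat.gcd_dvd_right a b)) (h.prime_a hp h1)

theorem Dat.logId : (a : ℝ) * Real.log a + b * Real.log b + ((a + b - c : ℕ) : ℝ) * Real.log t =
    c * Real.log c := by
  have ha0 : (a : ℝ) ≠ 0 := by have := h.a1; positivity
  have hb0 : (b : ℝ) ≠ 0 := by have := h.b1; positivity
  have ht0 : (t : ℝ) ≠ 0 := by have := h.t0; positivity
  have h1 : ((a : ℝ) ^ a * (b : ℝ) ^ b * (t : ℝ) ^ (a + b - c)) = (c : ℝ) ^ c := by
    exact_mod_cast h.pow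
  have h2 := congrArg Real.log h1
  rw [Real.log_mul (by positivity) (by positivity), Real.log_mul (by positivity) (by positivity),
    Real.log_pow, Real.log_pow, Real.log_pow, Real.log_pow] at h2
  exact h2

/-- convexity: `(a + b) log ((a + b) / 2) ≤ a log a + b log b` -/
theorem Dat.convex : ((a : ℝ) + b) * (Real.log (a + b) - Real.log 2) ≤
    a * Real.log a + b * Real.log b := by
  have ha0 : (0 : ℝ) < a := by have := h.a1; positivity
  have hb0 : (0 : ℝ) < b := by have := h.b1; positivity
  have key : ∀ u v : ℝ, 0 < u → 0 < v → u * (Real.log v - Real.log u) ≤ v - u := by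
    intro u v hu hv
    have h1 := Real.log_le_sub_one_of_pos (show 0 < v / u by positivity)
    rw [Real.log_div hv.ne' hu.ne'] at h1
    have h2 := mul_le_mul_of_nonneg_left h1 hu.le
    have h3 : u * (v / u - 1) = v - u := by field_simp
    linarith
  have h1 := key a ((a + b) / 2) ha0 (by positivity)
  have h2 := key b ((a + b) / 2) hb0 (by positivity)
  rw [Real.log_div (by positivity) (by norm_num)] at h1 h2
  nlinarith

/-- `t ^ s < 2 ^ c` -/
theorem Dat.slog : ((a + b - c : ℕ) : ℝ) * Real.log t < c * Real.log 2 := by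
  have h1 := h.logId
  have h2 := h.convex
  have hc0 : (0 : ℝ) < c := by have := h.c0; positivity
  have hcab : (c : ℝ) + 1 ≤ a + b := by exact_mod_cast h.cab
  have hl : Real.log c ≤ Real.log (a + b) := Real.log_le_log hc0 (by linarith)
  have hl2 : Real.log 2 < Real.log (a + b) := by
    apply Real.log_lt_log (by norm_num)
    have := h.a1; have := h.b1
    have h3 : (2 : ℝ) ≤ a := by exact_mod_cast h.a1
    have h4 : (2 : ℝ) ≤ b := by exact_mod_cast h.b1
    linarith
  have h5 : (c : ℝ) * (Real.log (a + b) - Real.log 2) <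
      (a + b) * (Real.log (a + b) - Real.log 2) := by
    apply mul_lt_mul_of_pos_right _ (by linarith)
    linarith
  nlinarith

/-- `s log c ≤ 2 c log 2` -/
theorem Dat.sbound : ((a + b - c : ℕ) : ℝ) * Real.log c ≤ 2 * c * Real.log 2 := by
  have h1 := h.logId
  have h2 := h.convex
  have hc0 : (0 : ℝ) < c := by have := h.c0; positivity
  have hcab : (c : ℝ) + 1 ≤ a + b := by exact_mod_cast h.cab
  have hac : (a : ℝ) ≤ c := by exact_mod_cast h.ac.le
  have hbc : (b : ℝ) ≤ c := by exact_mod_cast h.bc.le
  have hs : ((a + b - c : ℕ) : ℝ) = a + b - c := by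
    rw [Nat.cast_sub h.cab.le]; push_cast; ring
  have ht : 0 ≤ Real.log t := Real.log_natCast_nonneg t
  have hl : Real.log c ≤ Real.log (a + b) := Real.log_le_log hc0 (by linarith)
  have hst : 0 ≤ ((a + b - c : ℕ) : ℝ) * Real.log t := by positivity
  have hl2 : 0 < Real.log 2 := Real.log_pos (by norm_num)
  rw [hs]
  rw [hs] at h1 hst
  have h3 : ((a : ℝ) + b) * (Real.log c - Real.log 2) ≤ c * Real.log c := by
    have h4 : ((a : ℝ) + b) * (Real.log c - Real.log 2) ≤
        ((a : ℝ) + b) * (Real.log (a + b) - Real.log 2) := by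
      apply mul_le_mul_of_nonneg_left _ (by linarith)
      linarith
    linarith
  nlinarith

/-- an exponent of `t` is bounded -/
theorem Dat.expT {p : ℕ} (hp : p.Prime) : (a + b - c) * t.factorization p < c := by
  have h1 := h.slog
  have h2 : (t.factorization p : ℝ) * Real.log 2 ≤ Real.log t := by
    have h3 : 2 ^ t.factorization p ≤ t :=
      (Nat.pow_le_pow_left hp.two_le _).trans (Nat.ordProj_le p h.t0.ne')
    have h4 : ((2 : ℝ)) ^ t.factorization p ≤ t := by exact_mod_cast h3
    have h5 := Real.log_le_log (by positivity) h4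
    rwa [Real.log_pow] at h5
  have hl2 : 0 < Real.log 2 := Real.log_pos (by norm_num)
  have h3 : ((a + b - c : ℕ) : ℝ) * (t.factorization p * Real.log 2) ≤
      ((a + b - c : ℕ) : ℝ) * Real.log t := mul_le_mul_of_nonneg_left h2 (Nat.cast_nonneg _)
  have h4 : (((a + b - c) * t.factorization p : ℕ) : ℝ) * Real.log 2 < c * Real.log 2 := by
    push_cast
    nlinarith
  have h5 := lt_of_mul_lt_mul_right h4 hl2.le
  exact_mod_cast h5

/-- primes of `c` divide `a` or `b` -/
theorem Dat.prime_c {p : ℕ} (hp : p.Prime) (hpc : p ∣ c) : p ∣ a ∨ p ∣ b := by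
  by_contra hne
  push Not at hne
  have h1 := h.val p
  rw [Nat.factorization_eq_zero_of_not_dvd hne.1, Nat.factorization_eq_zero_of_not_dvd hne.2]
    at h1
  have h2 : 0 < c.factorization p := hp.factorization_pos_of_dvd h.c0.ne' hpc
  have h3 := h.expT hp
  have h4 := h.cab
  have h5 : (a + b - c) * t.factorization p = c * c.factorization p := by
    have h6 : (a + b - c) * t.factorization p + c * t.factorization p =
        a * t.factorization p + b * t.factorization p := by
      rw [← add_mul, ← add_mul]; congr 1; omega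
    nlinarith
  nlinarith [Nat.mul_le_mul_left c h2]

theorem Dat.copS : Nat.Coprime (a + b - c) c := by
  rw [Nat.coprime_iff_gcd_eq_one]
  by_contra hne
  obtain ⟨p, hp, hpd⟩ := Nat.exists_prime_and_dvd hne
  have h1 : p ∣ a + b - c := hpd.trans (Nat.gcd_dvd_left _ _)
  have h2 : p ∣ c := hpd.trans (Nat.gcd_dvd_right _ _)
  have h3 : p ∣ a + b := by
    have h4 : a + b = (a + b - c) + c := by have := h.cab; omega
    rw [h4]; exact Dvd.dvd.add h1 h2
  rcases h.prime_c hp h2 with h5 | h5
  · exact h.gcd1 p hp h5 ((Nat.dvd_add_right h5).mp h3) h2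
  · exact h.gcd1 p hp ((Nat.dvd_add_left h5).mp h3) h5 h2

/-- the identity at a prime of `a` -/
theorem Dat.valA {p : ℕ} (hp : p.Prime) (hpa : p ∣ a) :
    (a + b - c) * t.factorization p + a * a.factorization p = c * c.factorization p := by
  have h1 := h.val p
  have h2 : b.factorization p = 0 := by
    apply Nat.factorization_eq_zero_of_not_dvd
    intro hb
    exact h.gcd1 p hp hpa hb (h.prime_a hp hpa)
  rw [h2] at h1
  have h6 : (a + b - c) * t.factorization p + c * t.factorization p =
      a * t.factorization p + b * t.factorization p := by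
    have := h.cab
    rw [← add_mul, ← add_mul]; congr 1; omega
  nlinarith

theorem Dat.valB {q : ℕ} (hq : q.Prime) (hqb : q ∣ b) :
    (a + b - c) * t.factorization q + b * b.factorization q = c * c.factorization q := by
  have h1 := h.symm.valA hq hqb
  rwa [add_comm b a] at h1

/-- The key divisibility. -/
theorem Dat.key {p q : ℕ} (hp : p.Prime) (hpa : p ∣ a) (hq : q.Prime) (hqb : q ∣ b) :
    c ∣ a.factorization p * b.factorization q + t.factorization p * b.factorization q +
      t.factorization q * a.factorization p := by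
  have h1 := h.valA hp hpa
  have h2 := h.valB hq hqb
  have h3 := h.copS
  set α := a.factorization p
  set β := b.factorization q
  set T := t.factorization p
  set T' := t.factorization q
  set γ := c.factorization p
  set γ' := c.factorization q
  have hcab := h.cab
  have hs : a + b = (a + b - c) + c := by omega
  set s := a + b - c
  have h4 : s * (α * β + T * β + T' * α) + c * (α * β) = c * (γ * β + γ' * α) := by
    have h5 : (a + b) * (α * β) = (s + c) * (α * β) := by rw [hs]
    calc s * (α * β + T * β + T' * α) + c * (α * β)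
        = (s + c) * (α * β) + s * T * β + s * T' * α := by ring
      _ = (a + b) * (α * β) + s * T * β + s * T' * α := by rw [← h5]
      _ = (s * T + a * α) * β + (s * T' + b * β) * α := by ring
      _ = c * (γ * β + γ' * α) := by rw [h1, h2]; ring
  have h5 : c ∣ s * (α * β + T * β + T' * α) := by
    have h6 : c ∣ s * (α * β + T * β + T' * α) + c * (α * β) := by
      rw [h4]; exact dvd_mul_right _ _
    exact (Nat.dvd_add_left (dvd_mul_right _ _)).mp h6
  exact (Nat.Coprime.dvd_mul_left h3.symm).mp h5

theorem Dat.key_le {p q : ℕ} (hp : p.Prime) (hpa : p ∣ a) (hq : q.Prime) (hqb : q ∣ b) :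
    c ≤ a.factorization p * b.factorization q + t.factorization p * b.factorization q +
      t.factorization q * a.factorization p := by
  apply Nat.le_of_dvd _ (h.key hp hpa hq hqb)
  have h1 : 0 < a.factorization p := hp.factorization_pos_of_dvd (by have := h.a1; omega) hpa
  have h2 : 0 < b.factorization q := hq.factorization_pos_of_dvd (by have := h.b1; omega) hqb
  positivity

/-- `c` is small -/
theorem Dat.c_le : c ≤ Nat.log 2 (c * t) ^ 2 := by
  obtain ⟨p, hp, hpa⟩ := Nat.exists_prime_and_dvd (show a ≠ 1 by have := h.a1; omega)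
  obtain ⟨q, hq, hqb⟩ := Nat.exists_prime_and_dvd (show b ≠ 1 by have := h.b1; omega)
  have h1 := h.key_le hp hpa hq hqb
  have h2 : ∀ r d : ℕ, r.Prime → 0 < d → d < c →
      d.factorization r + t.factorization r ≤ Nat.log 2 (c * t) := by
    intro r d hr hd hdc
    have h3 : d.factorization r + t.factorization r = (d * t).factorization r := by
      rw [Nat.factorization_mul hd.ne' h.t0.ne', Finsupp.add_apply]
    rw [h3]
    apply Nat.le_log_of_pow_le (by norm_num)
    calc 2 ^ (d * t).factorization r ≤ r ^ (d * t).factorization r :=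
          Nat.pow_le_pow_left hr.two_le _
      _ ≤ d * t := Nat.ordProj_le r (by have := h.t0; positivity)
      _ ≤ c * t := Nat.mul_le_mul_right _ hdc.le
  have h3 := h2 p a hp (by have := h.a1; omega) h.ac
  have h4 := h2 q b hq (by have := h.b1; omega) h.bc
  calc c ≤ _ := h1
    _ ≤ (a.factorization p + t.factorization p) * (b.factorization q + t.factorization q) := by
        nlinarith [Nat.zero_le (t.factorization p * t.factorization q)]
    _ ≤ Nat.log 2 (c * t) * Nat.log 2 (c * t) := Nat.mul_le_mul h3 h4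
    _ = _ := by ring

/-- exponents of `c` at primes of `a` are at most those of `a` -/
theorem Dat.gamma_le {p : ℕ} (hp : p.Prime) (hpa : p ∣ a) :
    c.factorization p ≤ a.factorization p := by
  by_contra hlt
  push Not at hlt
  have h1 := h.valA hp hpa
  have h2 := h.expT hp
  have h3 : c * (a.factorization p + 1) ≤ c * c.factorization p := Nat.mul_le_mul_left _ hlt
  have h4 : a * a.factorization p ≤ c * a.factorization p := Nat.mul_le_mul_right _ h.ac.le
  nlinarith

end

end Pool.Agent.W_4d3d39_h43
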