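import Mathlib
import Pool.Agent.W_4d3d39_h43.Basic

/-!
The inequality `c log rad a log rad b ≤ log a log b + log t log c`.
-/

set_option autoImplicit false

namespace Pool.Agent.W_4d3d39_h43

open Finset

/-- `log (rad n)` -/
noncomputable def LR (n : ℕ) : ℝ := ∑ p ∈ n.primeFactors, Real.log p

theorem log_eq (n : ℕ) : Real.log n = ∑ p ∈ n.primeFactors, (n.factorization p : ℝ) * Real.log p := by
  rw [Real.log_nat_eq_sum_factorization, Finsupp.sum, Nat.support_factorization]

theorem LR_nonneg (n : ℕ) : 0 ≤ LR n := sum_nonneg fun p _ => Real.log_natCast_nonneg p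

theorem LR_ge {n : ℕ} (hn : 1 < n) : Real.log 2 ≤ LR n := by
  obtain ⟨p, hp, hpn⟩ := Nat.exists_prime_and_dvd (show n ≠ 1 by omega)
  have h1 : p ∈ n.primeFactors := Nat.mem_primeFactors.mpr ⟨hp, hpn, by omega⟩
  calc Real.log 2 ≤ Real.log p := Real.log_le_log (by norm_num) (by exact_mod_cast hp.two_le)
    _ ≤ LR n := single_le_sum (f := fun p : ℕ => Real.log p)
        (fun q _ => Real.log_natCast_nonneg q) h1

section

variable {a b c t : ℕ} (h : Dat a b c t)

include h

theorem Dat.tau : (∑ p ∈ a.primeFactors, (t.factorization p : ℝ) * Real.log p) +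
    (∑ p ∈ b.primeFactors, (t.factorization p : ℝ) * Real.log p) ≤ Real.log t := by
  have hd : Disjoint a.primeFactors b.primeFactors := h.cop.disjoint_primeFactors
  rw [← sum_union hd, log_eq t]
  calc ∑ p ∈ a.primeFactors ∪ b.primeFactors, (t.factorization p : ℝ) * Real.log p
      = ∑ p ∈ (a.primeFactors ∪ b.primeFactors).filter (fun p => p ∈ t.primeFactors),
          (t.factorization p : ℝ) * Real.log p := by
        rw [sum_filter]
        refine sum_congr rfl fun p _ => ?_
        split_ifs with h1
        · rfl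
        · have h2 : t.factorization p = 0 := by
            rw [← Finsupp.notMem_support_iff, Nat.support_factorization]
            exact h1
          rw [h2]; simp
    _ ≤ ∑ p ∈ t.primeFactors, (t.factorization p : ℝ) * Real.log p := by
        apply sum_le_sum_of_subset_of_nonneg
        · intro p hp
          exact (mem_filter.mp hp).2
        · intro p _ _
          exact mul_nonneg (Nat.cast_nonneg _) (Real.log_natCast_nonneg p)

theorem Dat.main_ineq : (c : ℝ) * (LR a * LR b) ≤
    Real.log a * Real.log b + Real.log t * Real.log c := by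
  set τ₁ := ∑ p ∈ a.primeFactors, (t.factorization p : ℝ) * Real.log p with hτ₁
  set τ₂ := ∑ p ∈ b.primeFactors, (t.factorization p : ℝ) * Real.log p with hτ₂
  have hτ : τ₁ + τ₂ ≤ Real.log t := h.tau
  have hτ₁0 : 0 ≤ τ₁ := sum_nonneg fun p _ =>
    mul_nonneg (Nat.cast_nonneg _) (Real.log_natCast_nonneg p)
  have hτ₂0 : 0 ≤ τ₂ := sum_nonneg fun p _ =>
    mul_nonneg (Nat.cast_nonneg _) (Real.log_natCast_nonneg p)
  have h1 : (c : ℝ) * (LR a * LR b) ≤
      Real.log a * Real.log b + τ₁ * Real.log b + τ₂ * Real.log a := by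
    have e1 : (c : ℝ) * (LR a * LR b) =
        ∑ p ∈ a.primeFactors, ∑ q ∈ b.primeFactors, (c : ℝ) * (Real.log p * Real.log q) := by
      rw [LR, LR, sum_mul_sum, mul_sum]
      refine sum_congr rfl fun p _ => ?_
      rw [mul_sum]
    have e2 : Real.log a * Real.log b + τ₁ * Real.log b + τ₂ * Real.log a =
        ∑ p ∈ a.primeFactors, ∑ q ∈ b.primeFactors,
          (((a.factorization p : ℝ) * b.factorization q + (t.factorization p : ℝ) *
            b.factorization q + (t.factorization q : ℝ) * a.factorization p) *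
            (Real.log p * Real.log q)) := by
      have e3 : ∀ p q : ℕ, (((a.factorization p : ℝ) * b.factorization q +
          (t.factorization p : ℝ) * b.factorization q + (t.factorization q : ℝ) *
          a.factorization p) * (Real.log p * Real.log q)) =
          ((a.factorization p : ℝ) * Real.log p) * ((b.factorization q : ℝ) * Real.log q) +
          ((t.factorization p : ℝ) * Real.log p) * ((b.factorization q : ℝ) * Real.log q) +
          ((a.factorization p : ℝ) * Real.log p) * ((t.factorization q : ℝ) * Real.log q) := by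
        intro p q; ring
      simp only [e3, sum_add_distrib]
      rw [← sum_mul_sum, ← sum_mul_sum, ← sum_mul_sum, ← log_eq a, ← log_eq b, ← hτ₁, ← hτ₂]
      ring
    rw [e1, e2]
    refine sum_le_sum fun p hp => sum_le_sum fun q hq => ?_
    apply mul_le_mul_of_nonneg_right
    · have := h.key_le (Nat.prime_of_mem_primeFactors hp) (Nat.dvd_of_mem_primeFactors hp)
        (Nat.prime_of_mem_primeFactors hq) (Nat.dvd_of_mem_primeFactors hq)
      exact_mod_cast this
    · exact mul_nonneg (Real.log_natCast_nonneg p) (Real.log_natCast_nonneg q)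
  have ha : Real.log a ≤ Real.log c := by
    apply Real.log_le_log
    · have := h.a1; positivity
    · exact_mod_cast h.ac.le
  have hb : Real.log b ≤ Real.log c := by
    apply Real.log_le_log
    · have := h.b1; positivity
    · exact_mod_cast h.bc.le
  have h2 := mul_le_mul_of_nonneg_left ha hτ₂0
  have h3 := mul_le_mul_of_nonneg_left hb hτ₁0
  have hc : 0 ≤ Real.log c := Real.log_natCast_nonneg c
  have h4 := mul_le_mul_of_nonneg_right hτ hc
  linarith

/-- `s log rad a log rad b ≤ 3 log c` -/
theorem Dat.rad_ineq : ((a + b - c : ℕ) : ℝ) * (LR a * LR b) ≤ 3 * Real.log c := by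
  have h1 := h.main_ineq
  have h2 := h.slog
  have h3 := h.sbound
  set s : ℝ := ((a + b - c : ℕ) : ℝ) with hs
  have hs0 : 0 ≤ s := Nat.cast_nonneg _
  have hc0 : (0 : ℝ) < c := by have := h.c0; positivity
  have hlc : 0 ≤ Real.log c := Real.log_natCast_nonneg c
  have ha : Real.log a ≤ Real.log c := by
    apply Real.log_le_log
    · have := h.a1; positivity
    · exact_mod_cast h.ac.le
  have hb : Real.log b ≤ Real.log c := by
    apply Real.log_le_log
    · have := h.b1; positivity
    · exact_mod_cast h.bc.le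
  have ha0 : 0 ≤ Real.log a := Real.log_natCast_nonneg a
  have hb0 : 0 ≤ Real.log b := Real.log_natCast_nonneg b
  have hab : Real.log a * Real.log b ≤ Real.log c * Real.log c :=
    mul_le_mul ha hb hb0 hlc
  have hl2 : Real.log 2 < 0.6931471808 := Real.log_two_lt_d9
  have h4 : s * ((c : ℝ) * (LR a * LR b)) ≤ s * (Real.log c * Real.log c) +
      (s * Real.log t) * Real.log c := by
    have := mul_le_mul_of_nonneg_left h1 hs0
    have h5 := mul_le_mul_of_nonneg_left hab hs0
    nlinarith
  have h5 : (s * Real.log c) * Real.log c ≤ (2 * c * Real.log 2) * Real.log c :=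
    mul_le_mul_of_nonneg_right h3 hlc
  have h6 : (s * Real.log t) * Real.log c ≤ (c * Real.log 2) * Real.log c :=
    mul_le_mul_of_nonneg_right h2.le hlc
  have h7 : (c : ℝ) * (s * (LR a * LR b)) ≤ c * (3 * Real.log c) := by
    have h8 : (c : ℝ) * Real.log c * Real.log 2 ≤ c * Real.log c * 1 :=
      mul_le_mul_of_nonneg_left (by linarith) (by positivity)
    nlinarith
  exact le_of_mul_le_mul_left h7 hc0

theorem Dat.s_pos : 1 ≤ a + b - c := by have := h.cab; omega

/-- `s ≤ 7 log c` -/
theorem Dat.s_le : ((a + b - c : ℕ) : ℝ) ≤ 7 * Real.log c := by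
  have h1 := h.rad_ineq
  have h2 := LR_ge h.a1
  have h3 := LR_ge h.b1
  have hl2 : 0.6931471803 < Real.log 2 := Real.log_two_gt_d9
  set s : ℝ := ((a + b - c : ℕ) : ℝ) with hs
  have hs0 : 0 ≤ s := Nat.cast_nonneg _
  have h4 : (0.48 : ℝ) ≤ LR a * LR b := by
    have : (0.6931471803 : ℝ) * 0.6931471803 ≤ LR a * LR b :=
      mul_le_mul (by linarith) (by linarith) (by norm_num) (by linarith)
    linarith [show (0.48 : ℝ) ≤ 0.6931471803 * 0.6931471803 by norm_num]
  have h5 := mul_le_mul_of_nonneg_left h4 hs0
  have hlc : 0 ≤ Real.log c := Real.log_natCast_nonneg c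
  linarith

/-- one of the radicals is small -/
theorem Dat.small_rad : LR a ≤ Real.sqrt (3 * Real.log c) ∨ LR b ≤ Real.sqrt (3 * Real.log c) := by
  by_contra hne
  push Not at hne
  have h1 := h.rad_ineq
  have hs : (1 : ℝ) ≤ ((a + b - c : ℕ) : ℝ) := by exact_mod_cast h.s_pos
  have h2 : LR a * LR b ≤ 3 * Real.log c := by
    have h3 : 0 ≤ LR a * LR b := mul_nonneg (LR_nonneg a) (LR_nonneg b)
    nlinarith
  have h4 : Real.sqrt (3 * Real.log c) * Real.sqrt (3 * Real.log c) < LR a * LR b :=
    mul_lt_mul'' hne.1 hne.2 (Real.sqrt_nonneg _) (Real.sqrt_nonneg _)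
  rw [Real.mul_self_sqrt (by have := Real.log_natCast_nonneg c; positivity)] at h4
  linarith

end

end Pool.Agent.W_4d3d39_h43
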