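import Mathlib
import Pool.Agent.W_4d3d39_h43.Rad

/-!
Counting the reduced triples.
-/

set_option autoImplicit false

namespace Pool.Agent.W_4d3d39_h43

open Finset

/-- the part of `c` at the primes of `a` -/
def part (a c : ℕ) : ℕ := ∏ p ∈ a.primeFactors, p ^ c.factorization p

section

variable {a b c t : ℕ} (h : Dat a b c t)

include h

theorem Dat.primeFactors_c : c.primeFactors = a.primeFactors ∪ b.primeFactors := by
  have ha0 : a ≠ 0 := by have := h.a1; omega
  have hb0 : b ≠ 0 := by have := h.b1; omega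
  ext p
  simp only [mem_union, Nat.mem_primeFactors]
  constructor
  · rintro ⟨hp, hpc, _⟩
    rcases h.prime_c hp hpc with h1 | h1
    · exact Or.inl ⟨hp, h1, ha0⟩
    · exact Or.inr ⟨hp, h1, hb0⟩
  · rintro (⟨hp, h1, _⟩ | ⟨hp, h1, _⟩)
    · exact ⟨hp, h.prime_a hp h1, h.c0.ne'⟩
    · exact ⟨hp, h.symm.prime_a hp h1, h.c0.ne'⟩

theorem Dat.part_mul : part a c * part b c = c := by
  rw [part, part, ← prod_union h.cop.disjoint_primeFactors, ← h.primeFactors_c]
  conv_rhs => rw [← Nat.prod_factorization_pow_eq_self h.c0.ne']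
  rw [Finsupp.prod, Nat.support_factorization]

theorem Dat.part_dvd : part a c ∣ a := by
  have ha0 : a ≠ 0 := by have := h.a1; omega
  have h1 : a = ∏ p ∈ a.primeFactors, p ^ a.factorization p := by
    conv_lhs => rw [← Nat.prod_factorization_pow_eq_self ha0]
    rw [Finsupp.prod, Nat.support_factorization]
  conv_rhs => rw [h1]
  apply prod_dvd_prod_of_dvd
  intro p hp
  exact pow_dvd_pow _ (h.gamma_le (Nat.prime_of_mem_primeFactors hp)
    (Nat.dvd_of_mem_primeFactors hp))

end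

/-- the numbers `n ≤ X` with `rad n ≤ exp R` -/
noncomputable def BB (X : ℕ) (R : ℝ) : Finset ℕ := (Icc 1 X).filter fun n => LR n ≤ R

/-- the candidates -/
noncomputable def FF (X S : ℕ) (R : ℝ) : Finset (ℕ × ℕ × ℕ) :=
  (BB X R).biUnion fun b => (range (S + 1)).biUnion fun s =>
    (b.divisors ×ˢ (b - s).divisors).image fun w => (w.2 * w.1 + s - b, b, w.2 * w.1)

theorem Dat.mem_FF {a b c t X S : ℕ} {R : ℝ} (h : Dat a b c t) (hc : c ≤ X)
    (hS : a + b - c ≤ S) (hR : LR b ≤ R) : (a, b, c) ∈ FF X S R := by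
  have ha1 := h.a1
  have hb1 := h.b1
  have hbc := h.bc
  have hac := h.ac
  have hcab := h.cab
  rw [FF, mem_biUnion]
  refine ⟨b, ?_, ?_⟩
  · rw [BB, mem_filter, mem_Icc]
    exact ⟨⟨by omega, by omega⟩, hR⟩
  · rw [mem_biUnion]
    refine ⟨a + b - c, mem_range.mpr (by omega), ?_⟩
    rw [mem_image]
    refine ⟨(part b c, part a c), ?_, ?_⟩
    · rw [mem_product, Nat.mem_divisors, Nat.mem_divisors]
      refine ⟨⟨h.symm.part_dvd, by omega⟩, ?_, by omega⟩
      have h1 : b - (a + b - c) = c - a := by omega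
      rw [h1]
      apply Nat.dvd_sub
      · exact ⟨part b c, h.part_mul.symm⟩
      · exact h.part_dvd
    · show (part a c * part b c + (a + b - c) - b, b, part a c * part b c) = (a, b, c)
      rw [h.part_mul]
      refine Prod.ext ?_ rfl
      show c + (a + b - c) - b = a
      omega

theorem card_FF {X S : ℕ} {R D : ℝ} (hD0 : 0 ≤ D)
    (hD : ∀ n ≤ X, (n.divisors.card : ℝ) ≤ D) :
    ((FF X S R).card : ℝ) ≤ (BB X R).card * ((S + 1) * D ^ 2) := by
  have h1 : ((FF X S R).card : ℝ) ≤ ∑ b ∈ BB X R, ∑ s ∈ range (S + 1),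
      ((b.divisors.card : ℝ) * ((b - s).divisors.card : ℝ)) := by
    have h2 : (FF X S R).card ≤ ∑ b ∈ BB X R, ∑ s ∈ range (S + 1),
        (b.divisors.card * (b - s).divisors.card) := by
      refine card_biUnion_le.trans (sum_le_sum fun b _ => ?_)
      refine card_biUnion_le.trans (sum_le_sum fun s _ => ?_)
      refine card_image_le.trans ?_
      rw [card_product]
    exact_mod_cast h2
  refine h1.trans ?_
  have h3 : ∀ b ∈ BB X R, ∑ s ∈ range (S + 1),
      ((b.divisors.card : ℝ) * ((b - s).divisors.card : ℝ)) ≤ (S + 1) * D ^ 2 := by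
    intro b hb
    rw [BB, mem_filter, mem_Icc] at hb
    calc _ ≤ ∑ s ∈ range (S + 1), D ^ 2 := by
          refine sum_le_sum fun s _ => ?_
          rw [sq]
          exact mul_le_mul (hD b hb.1.2) (hD (b - s) (by omega)) (Nat.cast_nonneg _) hD0
      _ = (S + 1) * D ^ 2 := by
          rw [sum_const, card_range, nsmul_eq_mul]
          push_cast
          ring
  calc _ ≤ ∑ b ∈ BB X R, ((S + 1) * D ^ 2 : ℝ) := sum_le_sum h3
    _ = _ := by rw [sum_const, nsmul_eq_mul]

/-- `card BB ≤ X ^ (1 / L) exp (L R)` -/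
theorem card_BB (X L : ℕ) (hL : 0 < L) (R : ℝ) (hR : 0 ≤ R) :
    ((BB X R).card : ℝ) ≤ (X : ℝ) ^ (1 / (L : ℝ)) * Real.exp (L * R) := by
  set M : ℕ := ⌊(X : ℝ) ^ (1 / (L : ℝ))⌋₊ with hM
  set N : ℕ := ⌊Real.exp (L * R)⌋₊ with hN
  set f : ℕ → ℕ × ℕ := fun n => (∏ p ∈ n.primeFactors, p ^ (n.factorization p / L),
    ∏ p ∈ n.primeFactors, p ^ (n.factorization p % L)) with hf
  have hLr : (0 : ℝ) < L := by exact_mod_cast hL
  have hrec : ∀ n : ℕ, n ≠ 0 → (f n).1 ^ L * (f n).2 = n := by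
    intro n hn
    rw [hf]
    simp only
    rw [← prod_pow, ← prod_mul_distrib]
    conv_rhs => rw [← Nat.prod_factorization_pow_eq_self hn]
    rw [Finsupp.prod, Nat.support_factorization]
    refine prod_congr rfl fun p _ => ?_
    rw [← pow_mul, ← pow_add, Nat.div_add_mod']
  have hpos1 : ∀ n : ℕ, 1 ≤ (f n).1 := by
    intro n
    have h0 : 0 < ∏ p ∈ n.primeFactors, p ^ (n.factorization p / L) :=
      Finset.prod_pos fun p hp => pow_pos (Nat.prime_of_mem_primeFactors hp).pos _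
    exact h0
  have hpos2 : ∀ n : ℕ, 1 ≤ (f n).2 := by
    intro n
    have h0 : 0 < ∏ p ∈ n.primeFactors, p ^ (n.factorization p % L) :=
      Finset.prod_pos fun p hp => pow_pos (Nat.prime_of_mem_primeFactors hp).pos _
    exact h0
  have hmaps : ∀ n ∈ BB X R, f n ∈ Icc 1 M ×ˢ Icc 1 N := by
    intro n hn
    rw [BB, mem_filter, mem_Icc] at hn
    obtain ⟨⟨hn1, hnX⟩, hnR⟩ := hn
    have hr := hrec n (by omega)
    rw [mem_product, mem_Icc, mem_Icc]
    refine ⟨⟨hpos1 n, ?_⟩, hpos2 n, ?_⟩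
    · rw [hM]
      apply Nat.le_floor
      have h1 : (f n).1 ^ L ≤ X := by
        calc (f n).1 ^ L ≤ (f n).1 ^ L * (f n).2 := Nat.le_mul_of_pos_right _ (hpos2 n)
          _ = n := hr
          _ ≤ X := hnX
      have h2 : ((f n).1 : ℝ) ^ L ≤ X := by exact_mod_cast h1
      calc ((f n).1 : ℝ) = (((f n).1 : ℝ) ^ L) ^ (1 / (L : ℝ)) := by
            rw [← Real.rpow_natCast, ← Real.rpow_mul (Nat.cast_nonneg _),
              mul_one_div_cancel hLr.ne', Real.rpow_one]
        _ ≤ _ := Real.rpow_le_rpow (by positivity) h2 (by positivity)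
    · rw [hN]
      apply Nat.le_floor
      have h1 : Real.log ((f n).2 : ℝ) ≤ L * R := by
        have h2 : ((f n).2 : ℝ) = ∏ p ∈ n.primeFactors, (p : ℝ) ^ (n.factorization p % L) := by
          rw [hf]; push_cast; rfl
        rw [h2, Real.log_prod]
        · calc ∑ p ∈ n.primeFactors, Real.log ((p : ℝ) ^ (n.factorization p % L))
              ≤ ∑ p ∈ n.primeFactors, (L : ℝ) * Real.log p := by
                refine sum_le_sum fun p _ => ?_
                rw [Real.log_pow]
                apply mul_le_mul_of_nonneg_right _ (Real.log_natCast_nonneg p)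
                exact_mod_cast (Nat.mod_lt _ hL).le
            _ = L * LR n := by rw [LR, mul_sum]
            _ ≤ L * R := mul_le_mul_of_nonneg_left hnR hLr.le
        · intro p hp
          have := (Nat.prime_of_mem_primeFactors hp).pos
          positivity
      have h3 : (0 : ℝ) < (f n).2 := by exact_mod_cast hpos2 n
      rw [← Real.exp_log h3]
      exact Real.exp_le_exp.mpr h1
  have hinj : Set.InjOn f (BB X R : Set ℕ) := by
    intro n hn m hm hnm
    rw [mem_coe, BB, mem_filter, mem_Icc] at hn hm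
    rw [← hrec n (by omega), ← hrec m (by omega), hnm]
  have h1 := card_le_card_of_injOn f hmaps hinj
  rw [card_product, Nat.card_Icc, Nat.card_Icc, Nat.add_sub_cancel, Nat.add_sub_cancel] at h1
  have h2 : ((BB X R).card : ℝ) ≤ (M : ℝ) * N := by exact_mod_cast h1
  refine h2.trans (mul_le_mul ?_ ?_ (Nat.cast_nonneg _) (by positivity))
  · exact Nat.floor_le (by positivity)
  · exact Nat.floor_le (Real.exp_pos _).le

/-- the nontrivial solutions with `z ≤ Z` -/
def Sols (Z : ℕ) : Finset (ℕ × ℕ × ℕ) :=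
  (Icc 2 Z ×ˢ Icc 2 Z ×ˢ Icc 1 Z).filter fun v => v.1 ^ v.1 * v.2.1 ^ v.2.1 = v.2.2 ^ v.2.2

theorem card_Sols (Z X S : ℕ) (R D : ℝ) (hX : Nat.log 2 Z ^ 2 ≤ X)
    (hS : 7 * Real.log X ≤ S) (hR : Real.sqrt (3 * Real.log X) ≤ R) (hD0 : 0 ≤ D)
    (hD : ∀ n ≤ X, (n.divisors.card : ℝ) ≤ D) :
    ((Sols Z).card : ℝ) ≤ 2 * ((BB X R).card * ((S + 1) * D ^ 2)) := by
  classical
  have H : ∀ v ∈ Sols Z, ∃ w : ℕ × ℕ × ℕ, ∃ t : ℕ, Dat w.1 w.2.1 w.2.2 t ∧
      v = (w.1 * t, w.2.1 * t, w.2.2 * t) := by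
    intro v hv
    rw [Sols, mem_filter, mem_product, mem_product, mem_Icc, mem_Icc, mem_Icc] at hv
    obtain ⟨a, b, c, t, h, h1, h2, h3⟩ := exists_dat (by omega : 1 < v.1) (by omega : 1 < v.2.1) hv.2
    exact ⟨(a, b, c), t, h, Prod.ext h1 (Prod.ext h2 h3)⟩
  choose! f hf using H
  set swap : ℕ × ℕ × ℕ → ℕ × ℕ × ℕ := fun w => (w.2.1, w.1, w.2.2) with hswap
  have hmaps : ∀ v ∈ Sols Z, f v ∈ FF X S R ∪ (FF X S R).image swap := by
    intro v hv
    obtain ⟨t, h, hvt⟩ := hf v hv
    rw [Sols, mem_filter, mem_product, mem_product, mem_Icc, mem_Icc, mem_Icc] at hv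
    have hz : (f v).2.2 * t ≤ Z := by
      have := hv.1.2.2.2
      rw [hvt] at this
      exact this
    have hcX : (f v).2.2 ≤ X :=
      (h.c_le.trans (Nat.pow_le_pow_left (Nat.log_mono_right hz) 2)).trans hX
    have hc0 : (0 : ℝ) < (f v).2.2 := by have := h.c0; positivity
    have hlog : Real.log (f v).2.2 ≤ Real.log X := Real.log_le_log hc0 (by exact_mod_cast hcX)
    have hsS : (f v).1 + (f v).2.1 - (f v).2.2 ≤ S := by
      have h1 := h.s_le
      have h2 : (((f v).1 + (f v).2.1 - (f v).2.2 : ℕ) : ℝ) ≤ S := by linarith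
      exact_mod_cast h2
    have hRR : Real.sqrt (3 * Real.log (f v).2.2) ≤ R :=
      (Real.sqrt_le_sqrt (by linarith)).trans hR
    rw [mem_union]
    rcases h.small_rad with h1 | h1
    · right
      rw [mem_image]
      refine ⟨((f v).2.1, (f v).1, (f v).2.2), ?_, rfl⟩
      exact h.symm.mem_FF hcX (by rw [add_comm]; exact hsS) (h1.trans hRR)
    · left
      exact h.mem_FF hcX hsS (h1.trans hRR)
  have hinj : Set.InjOn f (Sols Z : Set (ℕ × ℕ × ℕ)) := by
    intro v hv v' hv' hvv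
    obtain ⟨t, h, hvt⟩ := hf v hv
    obtain ⟨t', h', hvt'⟩ := hf v' hv'
    rw [← hvv] at h' hvt'
    have h1 : t ^ ((f v).1 + (f v).2.1 - (f v).2.2) = t' ^ ((f v).1 + (f v).2.1 - (f v).2.2) := by
      have h2 := h.pow.trans h'.pow.symm
      refine Nat.eq_of_mul_eq_mul_left ?_ h2
      have := h.a1; have := h.b1
      positivity
    have h2 : t = t' := Nat.pow_left_injective (by have := h.s_pos; omega) h1
    rw [hvt, hvt', h2]
  have h1 : (Sols Z).card ≤ 2 * (FF X S R).card := by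
    calc (Sols Z).card ≤ (FF X S R ∪ (FF X S R).image swap).card :=
          card_le_card_of_injOn f hmaps hinj
      _ ≤ (FF X S R).card + ((FF X S R).image swap).card := card_union_le _ _
      _ ≤ (FF X S R).card + (FF X S R).card := by
          have := card_image_le (s := FF X S R) (f := swap)
          omega
      _ = 2 * (FF X S R).card := by ring
  have h2 : ((Sols Z).card : ℝ) ≤ 2 * ((FF X S R).card : ℝ) := by exact_mod_cast h1
  have h3 := card_FF (X := X) (S := S) (R := R) hD0 hD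
  linarith

end Pool.Agent.W_4d3d39_h43
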