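import Mathlib
import Pool.Agent.W_4d3d39_h43.Cnt

/-!
A sharper count: rational approximations of `b / c`.
-/

set_option autoImplicit false

namespace Pool.Agent.W_4d3d39_h43

open Finset

section

variable {a b c t : ℕ} (h : Dat a b c t)

include h

/-- `c δ - b β = s τ ≥ 0` -/
theorem Dat.delta_ge {q : ℕ} (hq : q ∈ b.primeFactors) :
    0 ≤ (c.factorization q : ℝ) - b / c * b.factorization q := by
  have hc0 : (0 : ℝ) < c := by have := h.c0; positivity
  have h1 := h.valB (Nat.prime_of_mem_primeFactors hq) (Nat.dvd_of_mem_primeFactors hq)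
  have h2 : (((a + b - c) * t.factorization q + b * b.factorization q : ℕ) : ℝ) =
      ((c * c.factorization q : ℕ) : ℝ) := by exact_mod_cast h1
  push_cast at h2
  have h3 : 0 ≤ ((a + b - c : ℕ) : ℝ) * (t.factorization q : ℝ) := by positivity
  rw [div_mul_eq_mul_div, sub_nonneg, div_le_iff₀ hc0]
  linarith

/-- The total defect at the primes of `b` is at most `log 2`. -/
theorem Dat.defect : ∑ q ∈ b.primeFactors,
    ((c.factorization q : ℝ) - b / c * b.factorization q) * Real.log q ≤ Real.log 2 := by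
  have hc0 : (0 : ℝ) < c := by have := h.c0; positivity
  have h1 : ∀ q ∈ b.primeFactors,
      ((c.factorization q : ℝ) - b / c * b.factorization q) * Real.log q =
      (((a + b - c : ℕ) : ℝ) / c) * ((t.factorization q : ℝ) * Real.log q) := by
    intro q hq
    have h1 := h.valB (Nat.prime_of_mem_primeFactors hq) (Nat.dvd_of_mem_primeFactors hq)
    have h2 : (((a + b - c) * t.factorization q + b * b.factorization q : ℕ) : ℝ) =
        ((c * c.factorization q : ℕ) : ℝ) := by exact_mod_cast h1
    push_cast at h2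
    have h3 : (c.factorization q : ℝ) - b / c * b.factorization q =
        ((a + b - c : ℕ) : ℝ) / c * (t.factorization q : ℝ) := by
      field_simp
      linarith
    rw [h3]; ring
  rw [sum_congr rfl h1, ← mul_sum]
  have h2 := h.tau
  have h3 : 0 ≤ ∑ p ∈ a.primeFactors, (t.factorization p : ℝ) * Real.log p :=
    sum_nonneg fun p _ => mul_nonneg (Nat.cast_nonneg _) (Real.log_natCast_nonneg p)
  have h4 := h.slog
  have h5 : ∑ p ∈ b.primeFactors, (t.factorization p : ℝ) * Real.log p ≤ Real.log t := by linarith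
  calc _ ≤ (((a + b - c : ℕ) : ℝ) / c) * Real.log t :=
        mul_le_mul_of_nonneg_left h5 (by positivity)
    _ = (((a + b - c : ℕ) : ℝ) * Real.log t) / c := by ring
    _ ≤ Real.log 2 := by
        rw [div_le_iff₀ hc0]
        linarith

/-- the cost of a rational approximation `r / u` of `b / c` -/
theorem Dat.cost {u r n : ℕ} (hr : |(u : ℝ) * (b / c) - r| ≤ 1 / ((n : ℝ) + 1)) :
    ∑ q ∈ b.primeFactors, |(u : ℝ) * c.factorization q - r * b.factorization q| * Real.log q ≤
      u * Real.log 2 + Real.log b / (n + 1) := by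
  have h1 : ∀ q ∈ b.primeFactors,
      |(u : ℝ) * c.factorization q - r * b.factorization q| * Real.log q ≤
      u * (((c.factorization q : ℝ) - b / c * b.factorization q) * Real.log q) +
      1 / ((n : ℝ) + 1) * ((b.factorization q : ℝ) * Real.log q) := by
    intro q hq
    have hlq : 0 ≤ Real.log q := Real.log_natCast_nonneg q
    have h2 := h.delta_ge hq
    have h3 : (u : ℝ) * c.factorization q - r * b.factorization q =
        u * ((c.factorization q : ℝ) - b / c * b.factorization q) +
        ((u : ℝ) * (b / c) - r) * b.factorization q := by ring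
    have h4 : |(u : ℝ) * c.factorization q - r * b.factorization q| ≤
        u * ((c.factorization q : ℝ) - b / c * b.factorization q) +
        1 / ((n : ℝ) + 1) * b.factorization q := by
      rw [h3]
      refine (abs_add_le _ _).trans (add_le_add ?_ ?_)
      · rw [abs_of_nonneg (mul_nonneg (Nat.cast_nonneg _) h2)]
      · rw [abs_mul, abs_of_nonneg (Nat.cast_nonneg (b.factorization q) : (0 : ℝ) ≤ _)]
        exact mul_le_mul_of_nonneg_right hr (Nat.cast_nonneg _)
    calc _ ≤ (u * ((c.factorization q : ℝ) - b / c * b.factorization q) +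
          1 / ((n : ℝ) + 1) * b.factorization q) * Real.log q :=
          mul_le_mul_of_nonneg_right h4 hlq
      _ = _ := by ring
  refine (sum_le_sum h1).trans ?_
  rw [sum_add_distrib, ← mul_sum, ← mul_sum, ← log_eq b]
  have h2 := h.defect
  have h3 := mul_le_mul_of_nonneg_left h2 (Nat.cast_nonneg u : (0 : ℝ) ≤ u)
  have h4 : 1 / ((n : ℝ) + 1) * Real.log b = Real.log b / (n + 1) := by ring
  linarith

/-- Dirichlet for `b / c`. -/
theorem Dat.dirichlet {n : ℕ} (hn : 0 < n) : ∃ u r : ℕ, 0 < u ∧ u ≤ n ∧ r ≤ u ∧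
    |(u : ℝ) * (b / c) - r| ≤ 1 / ((n : ℝ) + 1) := by
  have hc0 : (0 : ℝ) < c := by have := h.c0; positivity
  have hb0 : (0 : ℝ) < b := by have := h.b1; positivity
  have hbc : (b : ℝ) < c := by exact_mod_cast h.bc
  obtain ⟨u, hu0, hun, hu⟩ := Real.exists_nat_abs_mul_sub_round_le ((b : ℝ) / c) hn
  set j : ℤ := round ((u : ℝ) * (b / c)) with hj
  have hu0r : (0 : ℝ) < u := by exact_mod_cast hu0
  have hx0 : 0 < (u : ℝ) * (b / c) := by positivity
  have hx1 : (u : ℝ) * (b / c) < u := by
    have : (b : ℝ) / c < 1 := by rw [div_lt_one hc0]; exact hbc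
    nlinarith
  have h1 : (1 : ℝ) / ((n : ℝ) + 1) < 1 := by
    rw [div_lt_one (by positivity)]
    have : (0 : ℝ) < n := by exact_mod_cast hn
    linarith
  have h2 := abs_le.1 hu
  have hj0 : 0 ≤ j := by
    have : (-1 : ℝ) < j := by linarith
    have h3 : (-1 : ℤ) < j := by exact_mod_cast this
    omega
  have hj1 : j ≤ u := by
    have : (j : ℝ) < u + 1 := by linarith
    have h3 : j < (u : ℤ) + 1 := by exact_mod_cast this
    omega
  refine ⟨u, j.toNat, hu0, hun, by omega, ?_⟩
  have h3 : ((j.toNat : ℕ) : ℝ) = j := by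
    have : ((j.toNat : ℕ) : ℤ) = j := Int.toNat_of_nonneg hj0
    exact_mod_cast congrArg (fun z : ℤ => (z : ℝ)) this
  rw [h3]
  exact hu

end

/-- a product of prime powers has only these primes -/
theorem primeFactors_prod_sub {S : Finset ℕ} (hS : ∀ q ∈ S, q.Prime) (f : ℕ → ℕ) :
    (∏ q ∈ S, q ^ f q).primeFactors ⊆ S := by
  intro p hp
  have hpp := Nat.prime_of_mem_primeFactors hp
  have h1 := Nat.dvd_of_mem_primeFactors hp
  obtain ⟨q, hq, hpq⟩ := (hpp.prime.dvd_finsetProd_iff _).1 h1
  have h2 := hpp.dvd_of_dvd_pow hpq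
  rwa [(Nat.prime_dvd_prime_iff_eq hpp (hS q hq)).1 h2]

theorem LR_mono_sub {m n : ℕ} (hmn : m.primeFactors ⊆ n.primeFactors) : LR m ≤ LR n :=
  sum_le_sum_of_subset_of_nonneg hmn fun p _ _ => Real.log_natCast_nonneg p

section

variable {a b c t : ℕ} (h : Dat a b c t)

include h

/-- The structure of `b` and of the part of `c` at the primes of `b`. -/
theorem Dat.struct {n : ℕ} (hn : 0 < n) : ∃ u r b₁ d₁ M : ℕ, 0 < u ∧ u ≤ n ∧ r ≤ n ∧
    0 < M ∧ b = b₁ * M ^ u ∧ part b c = d₁ * M ^ r ∧
    LR b₁ ≤ n * Real.log 2 + Real.log b / (n + 1) ∧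
    LR d₁ ≤ n * Real.log 2 + Real.log b / (n + 1) := by
  have hb0 : b ≠ 0 := by have := h.b1; omega
  obtain ⟨u₀, r₀, hu0, hun, hru, hcl⟩ := h.dirichlet hn
  have hcost := h.cost hcl
  obtain ⟨g, u, r, hg, hcop, hu, hr⟩ : ∃ g u r : ℕ, 0 < g ∧ Nat.Coprime u r ∧ u₀ = u * g ∧
      r₀ = r * g := by
    obtain ⟨g, u, r, h1, h2, h3, h4⟩ := Nat.exists_coprime' (m := u₀) (n := r₀)
      (Nat.gcd_pos_of_pos_left _ hu0)
    exact ⟨g, u, r, h1, h2, h3, h4⟩
  have hupos : 0 < u := by
    rcases Nat.eq_zero_or_pos u with h5 | h5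
    · rw [h5, zero_mul] at hu; omega
    · exact h5
  have hule : u ≤ n := by
    have : u ≤ u * g := Nat.le_mul_of_pos_right u hg
    omega
  have hrle : r ≤ n := by
    have : r ≤ r * g := Nat.le_mul_of_pos_right r hg
    omega
  set G := b.primeFactors.filter (fun q => u₀ * c.factorization q = r₀ * b.factorization q) with hG
  set S := b.primeFactors.filter (fun q => ¬ u₀ * c.factorization q = r₀ * b.factorization q)
    with hS
  have hSp : ∀ q ∈ S, q.Prime := fun q hq => Nat.prime_of_mem_primeFactors (mem_filter.1 hq).1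
  have hGe : ∀ q ∈ G, b.factorization q = (b.factorization q / u) * u ∧
      c.factorization q = (b.factorization q / u) * r := by
    intro q hq
    have h1 := (mem_filter.1 hq).2
    rw [hu, hr] at h1
    have h2 : u * c.factorization q = r * b.factorization q := by
      apply Nat.eq_of_mul_eq_mul_right hg
      linarith
    have h3 : u ∣ b.factorization q := hcop.dvd_of_dvd_mul_left ⟨c.factorization q, h2.symm⟩
    obtain ⟨e, he⟩ := h3
    rw [he, Nat.mul_div_cancel_left _ hupos]
    refine ⟨by ring, ?_⟩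
    rw [he] at h2
    apply Nat.eq_of_mul_eq_mul_left hupos
    linarith
  have hLR : ∑ q ∈ S, Real.log q ≤ n * Real.log 2 + Real.log b / (n + 1) := by
    calc ∑ q ∈ S, Real.log q
        ≤ ∑ q ∈ S, |(u₀ : ℝ) * c.factorization q - r₀ * b.factorization q| * Real.log q := by
          refine sum_le_sum fun q hq => ?_
          have h1 := (mem_filter.1 hq).2
          have h2 : ((u₀ * c.factorization q : ℕ) : ℤ) - (r₀ * b.factorization q : ℕ) ≠ 0 := by
            intro h3
            apply h1
            have : ((u₀ * c.factorization q : ℕ) : ℤ) = (r₀ * b.factorization q : ℕ) := by linarith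
            exact_mod_cast this
          have h3 : (1 : ℤ) ≤ |((u₀ * c.factorization q : ℕ) : ℤ) - (r₀ * b.factorization q : ℕ)| :=
            Int.one_le_abs h2
          have h4 : (1 : ℝ) ≤ |(u₀ : ℝ) * c.factorization q - r₀ * b.factorization q| := by
            have h5 : ((1 : ℤ) : ℝ) ≤
              ((|((u₀ * c.factorization q : ℕ) : ℤ) - (r₀ * b.factorization q : ℕ)| : ℤ) : ℝ) := by
              exact_mod_cast h3
            push_cast at h5
            exact h5
          exact le_mul_of_one_le_left (Real.log_natCast_nonneg q) h4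
      _ ≤ ∑ q ∈ b.primeFactors,
          |(u₀ : ℝ) * c.factorization q - r₀ * b.factorization q| * Real.log q :=
          sum_le_sum_of_subset_of_nonneg (filter_subset _ _) fun q _ _ =>
            mul_nonneg (abs_nonneg _) (Real.log_natCast_nonneg q)
      _ ≤ u₀ * Real.log 2 + Real.log b / (n + 1) := hcost
      _ ≤ _ := by
          have h1 : (u₀ : ℝ) ≤ n := by exact_mod_cast hun
          have h2 := mul_le_mul_of_nonneg_right h1 (Real.log_nonneg one_le_two)
          linarith
  have hLRf : ∀ f : ℕ → ℕ, LR (∏ q ∈ S, q ^ f q) ≤ n * Real.log 2 + Real.log b / (n + 1) := by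
    intro f
    refine le_trans ?_ hLR
    exact sum_le_sum_of_subset_of_nonneg (primeFactors_prod_sub hSp f)
      fun p _ _ => Real.log_natCast_nonneg p
  refine ⟨u, r, ∏ q ∈ S, q ^ b.factorization q, ∏ q ∈ S, q ^ c.factorization q,
    ∏ q ∈ G, q ^ (b.factorization q / u), hupos, hule, hrle, ?_, ?_, ?_, hLRf _, hLRf _⟩
  · exact Finset.prod_pos fun q hq =>
      pow_pos (Nat.prime_of_mem_primeFactors (mem_filter.1 hq).1).pos _
  · rw [← prod_pow]
    have h1 : ∏ q ∈ G, (q ^ (b.factorization q / u)) ^ u = ∏ q ∈ G, q ^ b.factorization q := by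
      refine prod_congr rfl fun q hq => ?_
      rw [← pow_mul, ← (hGe q hq).1]
    rw [h1, mul_comm, hG, hS, prod_filter_mul_prod_filter_not]
    conv_lhs => rw [← Nat.prod_factorization_pow_eq_self hb0]
    rw [Finsupp.prod, Nat.support_factorization]
  · rw [← prod_pow]
    have h1 : ∏ q ∈ G, (q ^ (b.factorization q / u)) ^ r = ∏ q ∈ G, q ^ c.factorization q := by
      refine prod_congr rfl fun q hq => ?_
      rw [← pow_mul, ← (hGe q hq).2]
    rw [h1, mul_comm, hG, hS, prod_filter_mul_prod_filter_not, part]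

end

/-- the possible values of `M` -/
def Rts (X a k e u r b₁ d₁ : ℕ) : Finset ℕ :=
  (range (X + 1)).filter fun M => b₁ * M ^ u + a = e * d₁ * M ^ r + k

theorem card_Rts {X a k e u r b₁ d₁ n : ℕ} (hu : 0 < u) (hun : u ≤ n) (hrn : r ≤ n) (hb : 0 < b₁)
    (hak : a ≠ k) : (Rts X a k e u r b₁ d₁).card ≤ n := by
  classical
  set p : Polynomial ℤ := Polynomial.C (b₁ : ℤ) * Polynomial.X ^ u -
    Polynomial.C ((e * d₁ : ℕ) : ℤ) * Polynomial.X ^ r + Polynomial.C ((a : ℤ) - k) with hp
  have hev : ∀ x : ℤ, p.eval x = b₁ * x ^ u - ((e * d₁ : ℕ) : ℤ) * x ^ r + ((a : ℤ) - k) := by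
    intro x
    rw [hp]
    simp only [Polynomial.eval_add, Polynomial.eval_sub, Polynomial.eval_mul, Polynomial.eval_C,
      Polynomial.eval_pow, Polynomial.eval_X]
  have hp0 : p ≠ 0 := by
    intro h0
    have h1 := hev 0
    have h2 := hev 1
    rw [h0, Polynomial.eval_zero, zero_pow hu.ne'] at h1
    rw [h0, Polynomial.eval_zero, one_pow, one_pow] at h2
    rcases Nat.eq_zero_or_pos r with hr | hr
    · rw [hr, pow_zero] at h1
      have : (b₁ : ℤ) = 0 := by linarith
      omega
    · rw [zero_pow hr.ne'] at h1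
      apply hak
      have : (a : ℤ) = k := by linarith
      exact_mod_cast this
  have hdeg : p.natDegree ≤ n := by
    rw [hp]
    refine (Polynomial.natDegree_add_le _ _).trans (max_le ?_ ?_)
    · refine (Polynomial.natDegree_sub_le _ _).trans (max_le ?_ ?_)
      · exact (Polynomial.natDegree_C_mul_X_pow_le _ _).trans hun
      · exact (Polynomial.natDegree_C_mul_X_pow_le _ _).trans hrn
    · rw [Polynomial.natDegree_C]; exact Nat.zero_le _
  calc (Rts X a k e u r b₁ d₁).card ≤ p.roots.toFinset.card := by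
        apply card_le_card_of_injOn (fun M : ℕ => (M : ℤ))
        · intro M hM
          have hM' := (mem_filter.1 hM).2
          rw [mem_coe, Multiset.mem_toFinset, Polynomial.mem_roots hp0, Polynomial.IsRoot, hev]
          have h1 : ((b₁ * M ^ u + a : ℕ) : ℤ) = ((e * d₁ * M ^ r + k : ℕ) : ℤ) := by
            exact_mod_cast hM'
          push_cast at h1 ⊢
          linarith
        · intro x _ y _ hxy
          have h1 : (x : ℤ) = y := hxy
          exact_mod_cast h1
    _ ≤ Multiset.card p.roots := Multiset.toFinset_card_le _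
    _ ≤ p.natDegree := Polynomial.card_roots' p
    _ ≤ n := hdeg

end Pool.Agent.W_4d3d39_h43
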