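import Mathlib
import Pool.Agent.W_fd120a_h34.Div
import Pool.Agent.W_4d3d39_h43.Cnt

/-! The divisor bound `d (n) ≤ exp (3 W / log W)` for `n ≤ exp W`, and the count of the nontrivial
solutions of `x ^ x * y ^ y = z ^ z`. -/

set_option autoImplicit false

namespace Pool.Agent.W_4d3d39_h43

open Real

/-- the divisor bound with explicit constant -/
theorem divisor_bound' (ε : ℝ) (hε : 0 < ε) {n : ℕ} (hn : 0 < n) :
    (n.divisors.card : ℝ) ≤
      (max 1 (1 / (ε * Real.log 2))) ^ ⌈(2 : ℝ) ^ (1 / ε)⌉₊ * (n : ℝ) ^ ε := by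
  set C0 : ℝ := max 1 (1 / (ε * Real.log 2)) with hC0
  have hC1 : 1 ≤ C0 := le_max_left _ _
  set K : ℕ := ⌈(2 : ℝ) ^ (1 / ε)⌉₊ with hK
  have h1 : (n.divisors.card : ℝ) = ∏ p ∈ n.primeFactors, ((n.factorization p : ℝ) + 1) := by
    rw [Nat.card_divisors hn.ne']
    push_cast
    rfl
  have h2 : (n : ℝ) ^ ε = ∏ p ∈ n.primeFactors, ((p : ℝ) ^ n.factorization p) ^ ε := by
    rw [Real.finsetProd_rpow _ _ (fun p _ => by positivity)]
    congr 1
    conv_lhs => rw [← Nat.prod_factorization_pow_eq_self hn.ne']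
    rw [Finsupp.prod, Nat.support_factorization]
    push_cast
    rfl
  have h3 : ∀ p ∈ n.primeFactors, ((n.factorization p : ℝ) + 1) ≤
      (if p < K then C0 else 1) * ((p : ℝ) ^ n.factorization p) ^ ε := by
    intro p hp
    by_cases hpK : p < K
    · rw [if_pos hpK]
      exact FD120.Div_local_small ε hε p _ (Nat.prime_of_mem_primeFactors hp).two_le
    · rw [if_neg hpK, one_mul]
      refine FD120.Div_local_large ε hε p _ ?_
      exact (Nat.le_ceil _).trans (by exact_mod_cast not_lt.1 hpK)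
  have h4 : ∏ p ∈ n.primeFactors, (if p < K then C0 else 1) ≤ C0 ^ K := by
    rw [Finset.prod_ite, Finset.prod_const, Finset.prod_const_one, mul_one]
    refine pow_le_pow_right₀ hC1 ?_
    calc (n.primeFactors.filter (fun p => p < K)).card ≤ (Finset.range K).card := by
          refine Finset.card_le_card fun p hp => ?_
          rw [Finset.mem_range]
          exact (Finset.mem_filter.1 hp).2
      _ = K := Finset.card_range K
  rw [h1, h2]
  calc ∏ p ∈ n.primeFactors, ((n.factorization p : ℝ) + 1)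
      ≤ ∏ p ∈ n.primeFactors, ((if p < K then C0 else 1) *
          ((p : ℝ) ^ n.factorization p) ^ ε) :=
        Finset.prod_le_prod (fun p _ => by positivity) h3
    _ = (∏ p ∈ n.primeFactors, (if p < K then C0 else 1)) *
          ∏ p ∈ n.primeFactors, ((p : ℝ) ^ n.factorization p) ^ ε := Finset.prod_mul_distrib
    _ ≤ _ := mul_le_mul_of_nonneg_right h4 (Finset.prod_nonneg fun p _ => by positivity)

/-- Wigert's bound: `d (n) ≤ exp (3 W / log W)` for `n ≤ exp W`, `W = y ^ 16`. -/
theorem wigert {y W : ℝ} (hy : 2 ≤ y) (hW : W = y ^ 16) (hlog : Real.log W ≤ y) {n : ℕ}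
    (hnW : (n : ℝ) ≤ Real.exp W) : (n.divisors.card : ℝ) ≤ Real.exp (3 * (W / Real.log W)) := by
  rcases Nat.eq_zero_or_pos n with h0 | hn
  · subst h0
    simpa using (Real.exp_pos _).le
  have hy0 : 0 < y := by linarith
  have hW2 : (2 : ℝ) ^ 16 ≤ W := by rw [hW]; exact pow_le_pow_left₀ (by norm_num) hy 16
  have hW0 : 0 < W := by linarith [show (0 : ℝ) < 2 ^ 16 by norm_num]
  have hW1 : 1 < W := lt_of_lt_of_le (by norm_num) hW2
  have hlW : 0 < Real.log W := Real.log_pos hW1
  have hl2 : 0 < Real.log 2 := Real.log_pos (by norm_num)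
  have hl2' : Real.log 2 < 0.6931471808 := Real.log_two_lt_d9
  have hl2'' : 0.6931471803 < Real.log 2 := Real.log_two_gt_d9
  set ε : ℝ := 2 * Real.log 2 / Real.log W with hε
  have hε0 : 0 < ε := by positivity
  have h1 := divisor_bound' ε hε0 hn
  -- the exponent K
  have hK : (2 : ℝ) ^ (1 / ε) = y ^ 8 := by
    rw [hε, one_div_div, Real.rpow_def_of_pos (by norm_num)]
    have h2 : Real.log 2 * (Real.log W / (2 * Real.log 2)) = Real.log (y ^ 8) := by
      rw [hW, Real.log_pow, Real.log_pow]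
      push_cast
      field_simp
      ring
    rw [h2, Real.exp_log (by positivity)]
  have hKle : ((⌈(2 : ℝ) ^ (1 / ε)⌉₊ : ℕ) : ℝ) ≤ y ^ 8 + 1 := by
    rw [hK]
    exact (Nat.ceil_lt_add_one (by positivity)).le
  have hC0 : max 1 (1 / (ε * Real.log 2)) ≤ W := by
    apply max_le hW1.le
    rw [hε, div_mul_eq_mul_div, one_div_div, div_le_iff₀ (by positivity)]
    have h3 : 2 * y ≤ W := by
      have h4 : (2 : ℝ) ^ 15 ≤ y ^ 15 := pow_le_pow_left₀ (by norm_num) hy 15
      calc 2 * y ≤ y ^ 15 * y := by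
            apply mul_le_mul_of_nonneg_right _ hy0.le
            linarith [show (2 : ℝ) ≤ 2 ^ 15 by norm_num]
        _ = W := by rw [hW]; ring
    have h5 : (0.5 : ℝ) ≤ 2 * Real.log 2 * Real.log 2 := by nlinarith
    have h6 : W * 0.5 ≤ W * (2 * Real.log 2 * Real.log 2) :=
      mul_le_mul_of_nonneg_left h5 hW0.le
    linarith
  have h2 : (max 1 (1 / (ε * Real.log 2))) ^ ⌈(2 : ℝ) ^ (1 / ε)⌉₊ ≤
      Real.exp (W / Real.log W) := by
    calc (max 1 (1 / (ε * Real.log 2))) ^ ⌈(2 : ℝ) ^ (1 / ε)⌉₊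
        ≤ W ^ ⌈(2 : ℝ) ^ (1 / ε)⌉₊ := pow_le_pow_left₀ (by positivity) hC0 _
      _ = Real.exp ((⌈(2 : ℝ) ^ (1 / ε)⌉₊ : ℝ) * Real.log W) := by
          rw [← Real.log_pow, Real.exp_log (by positivity)]
      _ ≤ Real.exp (W / Real.log W) := by
          apply Real.exp_le_exp.mpr
          rw [le_div_iff₀ hlW]
          calc (⌈(2 : ℝ) ^ (1 / ε)⌉₊ : ℝ) * Real.log W * Real.log W
              ≤ (y ^ 8 + 1) * y * y := by
                gcongr
            _ ≤ y ^ 16 := by
                have h3 : (1 : ℝ) ≤ y ^ 8 := one_le_pow₀ (by linarith)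
                have h4 : (64 : ℝ) ≤ y ^ 6 := by
                  calc (64 : ℝ) = 2 ^ 6 := by norm_num
                    _ ≤ y ^ 6 := pow_le_pow_left₀ (by norm_num) hy 6
                calc (y ^ 8 + 1) * y * y ≤ (2 * y ^ 8) * y * y := by
                      gcongr; linarith
                  _ = 2 * y ^ 10 := by ring
                  _ ≤ y ^ 6 * y ^ 10 := by
                      apply mul_le_mul_of_nonneg_right _ (by positivity)
                      linarith
                  _ = y ^ 16 := by ring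
            _ = W := hW.symm
  have h3 : (n : ℝ) ^ ε ≤ Real.exp (2 * (W / Real.log W)) := by
    calc (n : ℝ) ^ ε ≤ (Real.exp W) ^ ε :=
          Real.rpow_le_rpow (Nat.cast_nonneg _) hnW hε0.le
      _ = Real.exp (W * ε) := by rw [← Real.exp_mul]
      _ ≤ Real.exp (2 * (W / Real.log W)) := by
          apply Real.exp_le_exp.mpr
          rw [hε]
          have h4 : W * (2 * Real.log 2 / Real.log W) = (2 * Real.log 2) * (W / Real.log W) := by
            ring
          rw [h4]
          apply mul_le_mul_of_nonneg_right _ (by positivity)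
          linarith
  calc (n.divisors.card : ℝ) ≤ _ := h1
    _ ≤ Real.exp (W / Real.log W) * Real.exp (2 * (W / Real.log W)) :=
        mul_le_mul h2 h3 (by positivity) (Real.exp_pos _).le
    _ = Real.exp (3 * (W / Real.log W)) := by
        rw [← Real.exp_add]; congr 1; ring

/-- The count in terms of `W`. -/
theorem count_W {y W : ℝ} (hy : 2 ≤ y) (hW : W = y ^ 16) (hlog : Real.log W ≤ y) {Z : ℕ}
    (hZ : 2 ≤ Z) (hZW : ((Nat.log 2 Z ^ 2 : ℕ) : ℝ) ≤ Real.exp W) :
    ((Sols Z).card : ℝ) ≤ Real.exp (8 * (W / Real.log W)) := by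
  have hy0 : 0 < y := by linarith
  have hW2 : (2 : ℝ) ^ 16 ≤ W := by rw [hW]; exact pow_le_pow_left₀ (by norm_num) hy 16
  have hW0 : 0 < W := by linarith [show (0 : ℝ) < 2 ^ 16 by norm_num]
  have hW1 : 1 < W := lt_of_lt_of_le (by norm_num) hW2
  have hlW : 0 < Real.log W := Real.log_pos hW1
  have hyW : y ^ 15 ≤ W / Real.log W := by
    rw [le_div_iff₀ hlW]
    calc y ^ 15 * Real.log W ≤ y ^ 15 * y := by gcongr
      _ = W := by rw [hW]; ring
  set X : ℕ := Nat.log 2 Z ^ 2 with hX
  have hX1 : 1 ≤ X := Nat.one_le_pow _ _ (Nat.log_pos (by norm_num) hZ)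
  have hXr : (0 : ℝ) < X := by exact_mod_cast hX1
  have hlX : Real.log X ≤ W := by
    have := Real.log_le_log hXr hZW
    rwa [Real.log_exp] at this
  set S : ℕ := ⌈7 * W⌉₊ with hS
  have hS1 : 7 * Real.log X ≤ S := by
    have := Nat.le_ceil (7 * W)
    linarith
  have hS2 : (S : ℝ) ≤ 7 * W + 1 := (Nat.ceil_lt_add_one (by positivity)).le
  set R : ℝ := 2 * y ^ 8 with hR
  have hR1 : Real.sqrt (3 * Real.log X) ≤ R := by
    apply Real.sqrt_le_iff.mpr
    refine ⟨by positivity, ?_⟩
    calc 3 * Real.log X ≤ 4 * W := by linarith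
      _ = R ^ 2 := by rw [hR, hW]; ring
  set D : ℝ := Real.exp (3 * (W / Real.log W)) with hD
  have hD1 : ∀ n ≤ X, (n.divisors.card : ℝ) ≤ D := by
    intro n hn
    apply wigert hy hW hlog
    have : (n : ℝ) ≤ X := by exact_mod_cast hn
    linarith
  have h1 := card_Sols Z X S R D le_rfl hS1 hR1 (Real.exp_pos _).le hD1
  set L : ℕ := ⌈y ^ 4⌉₊ with hL
  have hL1 : y ^ 4 ≤ L := Nat.le_ceil _
  have hL2 : (L : ℝ) ≤ 2 * y ^ 4 := by
    have h2 : (1 : ℝ) ≤ y ^ 4 := one_le_pow₀ (by linarith)
    have h3 : (L : ℝ) < y ^ 4 + 1 := Nat.ceil_lt_add_one (by positivity)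
    linarith
  have hL0 : 0 < L := by
    have h2 : (0 : ℝ) < L := lt_of_lt_of_le (by positivity) hL1
    exact_mod_cast h2
  have hL0r : (0 : ℝ) < L := by exact_mod_cast hL0
  have h2 := card_BB X L hL0 R (by positivity)
  have h3 : (X : ℝ) ^ (1 / (L : ℝ)) * Real.exp (L * R) ≤ Real.exp (W / Real.log W) := by
    have h4 : (X : ℝ) ^ (1 / (L : ℝ)) ≤ Real.exp (y ^ 12) := by
      calc (X : ℝ) ^ (1 / (L : ℝ)) ≤ (Real.exp W) ^ (1 / (L : ℝ)) :=
            Real.rpow_le_rpow hXr.le hZW (by positivity)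
        _ = Real.exp (W * (1 / L)) := by rw [← Real.exp_mul]
        _ ≤ Real.exp (y ^ 12) := by
            apply Real.exp_le_exp.mpr
            rw [mul_one_div, div_le_iff₀ hL0r, hW]
            calc y ^ 16 = y ^ 12 * y ^ 4 := by ring
              _ ≤ y ^ 12 * L := by gcongr
    have h5 : Real.exp (L * R) ≤ Real.exp (4 * y ^ 12) := by
      apply Real.exp_le_exp.mpr
      calc (L : ℝ) * R ≤ (2 * y ^ 4) * (2 * y ^ 8) := by
            rw [hR]; gcongr
        _ = 4 * y ^ 12 := by ring
    calc (X : ℝ) ^ (1 / (L : ℝ)) * Real.exp (L * R)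
        ≤ Real.exp (y ^ 12) * Real.exp (4 * y ^ 12) :=
          mul_le_mul h4 h5 (Real.exp_pos _).le (Real.exp_pos _).le
      _ = Real.exp (5 * y ^ 12) := by rw [← Real.exp_add]; congr 1; ring
      _ ≤ Real.exp (W / Real.log W) := by
          apply Real.exp_le_exp.mpr
          refine le_trans ?_ hyW
          have h6 : (5 : ℝ) ≤ y ^ 3 := by
            calc (5 : ℝ) ≤ 2 ^ 3 := by norm_num
              _ ≤ y ^ 3 := pow_le_pow_left₀ (by norm_num) hy 3
          calc 5 * y ^ 12 ≤ y ^ 3 * y ^ 12 := by gcongr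
            _ = y ^ 15 := by ring
  have h4 : 2 * ((S : ℝ) + 1) ≤ Real.exp (W / Real.log W) := by
    have h5 : 2 * ((S : ℝ) + 1) ≤ 20 * W := by linarith
    have h6 : 20 * W ≤ Real.exp (W / Real.log W) := by
      have h7 : Real.log (20 * W) ≤ W / Real.log W := by
        rw [Real.log_mul (by norm_num) hW0.ne']
        have h8 : Real.log 20 ≤ 19 := by
          have := Real.log_le_sub_one_of_pos (show (0 : ℝ) < 20 by norm_num)
          linarith
        refine le_trans ?_ hyW
        have h9 : (2 : ℝ) ^ 14 ≤ y ^ 14 := pow_le_pow_left₀ (by norm_num) hy 14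
        have h10 : y ^ 15 = y ^ 14 * y := by ring
        rw [h10]
        nlinarith
      calc 20 * W = Real.exp (Real.log (20 * W)) := by rw [Real.exp_log (by positivity)]
        _ ≤ _ := Real.exp_le_exp.mpr h7
    linarith
  calc ((Sols Z).card : ℝ) ≤ 2 * ((BB X R).card * ((S + 1) * D ^ 2)) := h1
    _ ≤ 2 * (Real.exp (W / Real.log W) * ((S + 1) * D ^ 2)) := by
        have h5 : ((BB X R).card : ℝ) ≤ Real.exp (W / Real.log W) := h2.trans h3
        gcongr
    _ = Real.exp (W / Real.log W) * (2 * (S + 1)) * D ^ 2 := by ring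
    _ ≤ Real.exp (W / Real.log W) * Real.exp (W / Real.log W) * D ^ 2 := by gcongr
    _ = Real.exp (8 * (W / Real.log W)) := by
        rw [hD, sq, ← Real.exp_add, ← Real.exp_add, ← Real.exp_add]
        congr 1; ring

theorem Sols_mono {Z Z' : ℕ} (h : Z ≤ Z') : (Sols Z).card ≤ (Sols Z').card := by
  apply Finset.card_le_card
  intro v hv
  rw [Sols, Finset.mem_filter, Finset.mem_product, Finset.mem_product, Finset.mem_Icc,
    Finset.mem_Icc, Finset.mem_Icc] at hv ⊢
  refine ⟨⟨⟨hv.1.1.1, by omega⟩, ⟨hv.1.2.1.1, by omega⟩, ⟨hv.1.2.2.1, by omega⟩⟩, hv.2⟩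

/-- The number of nontrivial solutions with `z ≤ Z` is at most
`exp (C log log Z / log log log Z)`. -/
theorem count_main : ∃ C : ℝ, ∀ Z : ℕ, 16 ≤ Z → ((Sols Z).card : ℝ) ≤
    Real.exp (C * (Real.log (Real.log Z) / Real.log (Real.log (Real.log Z)))) := by
  -- eventually `16 log y ≤ y`
  have hev : ∀ᶠ y : ℝ in Filter.atTop, 16 * Real.log y ≤ y ∧ 2 ≤ y := by
    have h1 := (Real.isLittleO_log_id_atTop).def (show (0 : ℝ) < 1 / 16 by norm_num)
    filter_upwards [h1, Filter.eventually_ge_atTop (2 : ℝ)] with y h2 h3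
    simp only [id, Real.norm_eq_abs] at h2
    rw [abs_of_nonneg (Real.log_nonneg (by linarith)), abs_of_nonneg (by linarith)] at h2
    exact ⟨by linarith, h3⟩
  obtain ⟨y0, hy0⟩ := Filter.eventually_atTop.1 hev
  set u0 : ℝ := max 3 ((max y0 1) ^ 16) with hu0
  set Z1 : ℕ := ⌈Real.exp (Real.exp u0)⌉₊ with hZ1
  refine ⟨max 24 (Real.log (((Sols Z1).card : ℝ) + 1)), fun Z hZ => ?_⟩
  have hZr : (16 : ℝ) ≤ Z := by exact_mod_cast hZ
  have hl2'' : 0.6931471803 < Real.log 2 := Real.log_two_gt_d9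
  -- positivity of the iterated logarithms
  have hlZ : 2.7725 < Real.log Z := by
    have h1 : Real.log 16 ≤ Real.log Z := Real.log_le_log (by norm_num) hZr
    have h2 : Real.log 16 = 4 * Real.log 2 := by
      rw [show (16 : ℝ) = 2 ^ 4 by norm_num, Real.log_pow]; norm_num
    linarith
  have he : Real.exp 1 < 2.7182818286 := Real.exp_one_lt_d9
  have hu1 : 1 < Real.log (Real.log Z) := by
    rw [Real.lt_log_iff_exp_lt (by linarith)]
    linarith
  set u : ℝ := Real.log (Real.log Z) with hu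
  have hlu : 0 < Real.log u := Real.log_pos hu1
  have hratio : 1 ≤ u / Real.log u := by
    rw [le_div_iff₀ hlu, one_mul]
    have := Real.log_le_sub_one_of_pos (show 0 < u by linarith)
    linarith
  rcases le_or_gt Z Z1 with hcase | hcase
  · have h1 : ((Sols Z).card : ℝ) ≤ ((Sols Z1).card : ℝ) := by exact_mod_cast Sols_mono hcase
    calc ((Sols Z).card : ℝ) ≤ ((Sols Z1).card : ℝ) + 1 := by linarith
      _ = Real.exp (Real.log (((Sols Z1).card : ℝ) + 1)) := by rw [Real.exp_log (by positivity)]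
      _ ≤ _ := by
          apply Real.exp_le_exp.mpr
          have h2 : 0 ≤ Real.log (((Sols Z1).card : ℝ) + 1) :=
            Real.log_nonneg (by have : (0 : ℝ) ≤ ((Sols Z1).card : ℝ) := Nat.cast_nonneg _
                                linarith)
          calc Real.log (((Sols Z1).card : ℝ) + 1)
              ≤ Real.log (((Sols Z1).card : ℝ) + 1) * (u / Real.log u) :=
                le_mul_of_one_le_right h2 hratio
            _ ≤ _ := mul_le_mul_of_nonneg_right (le_max_right _ _) (by linarith)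
  · -- large Z
    have huu0 : u0 ≤ u := by
      have h1 : Real.exp (Real.exp u0) < Z := by
        have h2 := Nat.le_ceil (Real.exp (Real.exp u0))
        have h3 : (Z1 : ℝ) < Z := by exact_mod_cast hcase
        linarith
      have h2 : Real.exp u0 < Real.log Z := (Real.lt_log_iff_exp_lt (by linarith)).mpr h1
      exact ((Real.lt_log_iff_exp_lt (by linarith)).mpr h2).le
    have hu3 : 3 ≤ u := (le_max_left _ _).trans huu0
    set W : ℝ := 3 * u with hW
    set y : ℝ := W ^ (1 / 16 : ℝ) with hy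
    have hW0 : 0 < W := by linarith
    have hWy : W = y ^ 16 := by
      rw [hy, ← Real.rpow_natCast, ← Real.rpow_mul hW0.le]
      norm_num
    have hyy0 : y0 ≤ y := by
      have h1 : (max y0 1) ^ 16 ≤ W := by
        have := (le_max_right 3 ((max y0 1) ^ 16)).trans huu0
        linarith
      have h2 : max y0 1 ≤ y := by
        rw [hWy] at h1
        exact le_of_pow_le_pow_left₀ (by norm_num) (by positivity) h1
      exact (le_max_left _ _).trans h2
    obtain ⟨h16, hy2⟩ := hy0 y hyy0
    have hlogW : Real.log W ≤ y := by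
      rw [hWy, Real.log_pow]
      push_cast
      exact h16
    have hX : ((Nat.log 2 Z ^ 2 : ℕ) : ℝ) ≤ Real.exp W := by
      have h1 : (Nat.log 2 Z : ℝ) ≤ Real.log Z / Real.log 2 := by
        have := Real.natLog_le_logb Z 2
        rwa [Real.logb] at this
      have h2 : Real.log Z / Real.log 2 ≤ 2 * Real.log Z := by
        rw [div_le_iff₀ (by linarith)]
        nlinarith
      have h3 : Real.exp u = Real.log Z := by rw [hu, Real.exp_log (by linarith)]
      have h4 : (4 : ℝ) ≤ Real.exp u := by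
        have := Real.add_one_le_exp u
        linarith
      push_cast
      calc (Nat.log 2 Z : ℝ) ^ 2 ≤ (2 * Real.exp u) ^ 2 := by
            apply pow_le_pow_left₀ (Nat.cast_nonneg _)
            rw [h3]; linarith
        _ = 4 * Real.exp u ^ 2 := by ring
        _ ≤ Real.exp u * Real.exp u ^ 2 := by gcongr
        _ = Real.exp W := by
            rw [hW, ← pow_succ', ← Real.exp_nat_mul]
            norm_num
    have h1 := count_W hy2 hWy hlogW (by omega : 2 ≤ Z) hX
    refine h1.trans (Real.exp_le_exp.mpr ?_)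
    have h2 : Real.log u ≤ Real.log W := Real.log_le_log (by linarith) (by linarith)
    have h3 : W / Real.log W ≤ 3 * (u / Real.log u) := by
      rw [hW, mul_div_assoc]
      have h4 : u / Real.log (3 * u) ≤ u / Real.log u := by
        apply div_le_div_of_nonneg_left (by linarith) hlu
        rw [← hW]; exact h2
      linarith
    calc 8 * (W / Real.log W) ≤ 24 * (u / Real.log u) := by linarith
      _ ≤ _ := mul_le_mul_of_nonneg_right (le_max_left _ _) (by linarith)

end Pool.Agent.W_4d3d39_h43
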