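import Mathlib
import Pool.Agent.W_4d3d39_h43.Sq
import Pool.Agent.W_4d3d39_h43.Wig

/-!
The number of nontrivial solutions with `z ≤ Z` is at most `exp (C sqrt (log log Z))`.
-/

set_option autoImplicit false

namespace Pool.Agent.W_4d3d39_h43

open Finset

/-- the candidates -/
noncomputable def GG (X S n : ℕ) (R : ℝ) : Finset (ℕ × ℕ × ℕ) :=
  (BB X R ×ˢ BB X R ×ˢ BB X R ×ˢ BB X R ×ˢ range (S + 1) ×ˢ Icc 1 n ×ˢ range (n + 1)).biUnion
    fun w => if w.1 = w.2.2.2.2.1 then ∅ else
      (Rts X w.1 w.2.2.2.2.1 w.2.1 w.2.2.2.2.2.1 w.2.2.2.2.2.2 w.2.2.1 w.2.2.2.1).image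
        fun M => (w.1, w.2.2.1 * M ^ w.2.2.2.2.2.1, w.2.1 * w.2.2.2.1 * M ^ w.2.2.2.2.2.2)

theorem card_GG (X S n : ℕ) (R : ℝ) :
    (GG X S n R).card ≤ (BB X R).card ^ 4 * ((S + 1) * (n * ((n + 1) * n))) := by
  rw [GG]
  refine card_biUnion_le.trans ?_
  refine (sum_le_card_nsmul _ _ n ?_).trans ?_
  · rintro ⟨a, e, b₁, d₁, k, u, r⟩ hw
    simp only [mem_product, mem_Icc, mem_range] at hw
    obtain ⟨ha, he, hb, hd, hk, hu, hr⟩ := hw
    simp only
    split_ifs with h1
    · simp
    · refine card_image_le.trans ?_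
      rw [BB, mem_filter, mem_Icc] at hb
      exact card_Rts (by omega) hu.2 (by omega) (by omega) h1
  · rw [card_product, card_product, card_product, card_product, card_product, card_product,
      card_range, card_range, Nat.card_Icc, smul_eq_mul]
    apply le_of_eq
    rw [Nat.add_sub_cancel]
    ring

theorem Dat.mem_GG {a b c t X S n : ℕ} {R : ℝ} (h : Dat a b c t) (hc : c ≤ X)
    (hS : a + b - c ≤ S) (hn : 0 < n) (hR : LR a ≤ R)
    (hR1 : n * Real.log 2 + Real.log b / (n + 1) ≤ R) : (a, b, c) ∈ GG X S n R := by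
  have ha1 := h.a1
  have hb1 := h.b1
  have hbc := h.bc
  have hac := h.ac
  have hcab := h.cab
  obtain ⟨u, r, b₁, d₁, M, hu0, hun, hrn, hM0, hb, hd, hLb, hLd⟩ := h.struct hn
  have hb10 : 0 < b₁ := by
    rcases Nat.eq_zero_or_pos b₁ with h0 | h0
    · rw [h0, zero_mul] at hb; omega
    · exact h0
  have hpb : 0 < part b c := Finset.prod_pos fun p hp =>
    pow_pos (Nat.prime_of_mem_primeFactors hp).pos _
  have hpa : 0 < part a c := Finset.prod_pos fun p hp =>
    pow_pos (Nat.prime_of_mem_primeFactors hp).pos _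
  have hd10 : 0 < d₁ := by
    rcases Nat.eq_zero_or_pos d₁ with h0 | h0
    · rw [h0, zero_mul] at hd; omega
    · exact h0
  have hpm := h.part_mul
  have hpMu : 0 < M ^ u := pow_pos hM0 u
  have hpMr : 0 < M ^ r := pow_pos hM0 r
  have hb1le : b₁ ≤ b := by rw [hb]; exact Nat.le_mul_of_pos_right _ hpMu
  have hMle : M ≤ b := by
    rw [hb]
    calc M ≤ M ^ u := Nat.le_self_pow hu0.ne' M
      _ ≤ b₁ * M ^ u := Nat.le_mul_of_pos_left _ hb10
  have hd1le : d₁ ≤ c := by
    calc d₁ ≤ d₁ * M ^ r := Nat.le_mul_of_pos_right _ hpMr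
      _ = part b c := hd.symm
      _ ≤ part a c * part b c := Nat.le_mul_of_pos_left _ hpa
      _ = c := hpm
  have hele : part a c ≤ a := Nat.le_of_dvd (by omega) h.part_dvd
  rw [GG, mem_biUnion]
  refine ⟨(a, part a c, b₁, d₁, a + b - c, u, r), ?_, ?_⟩
  · simp only [mem_product, mem_Icc, mem_range, BB, mem_filter]
    refine ⟨⟨⟨by omega, by omega⟩, hR⟩, ⟨⟨by omega, by omega⟩, ?_⟩, ⟨⟨by omega, by omega⟩,
      hLb.trans hR1⟩, ⟨⟨by omega, by omega⟩, hLd.trans hR1⟩, by omega, ⟨hu0, hun⟩, by omega⟩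
    exact (LR_mono_sub (Nat.primeFactors_mono h.part_dvd (by omega))).trans hR
  · simp only
    rw [if_neg (by omega), mem_image]
    refine ⟨M, ?_, ?_⟩
    · rw [Rts, mem_filter, mem_range]
      refine ⟨by omega, ?_⟩
      have h1 : part a c * d₁ * M ^ r = c := by
        rw [mul_assoc, ← hd]; exact hpm
      rw [h1, ← hb]
      omega
    · have h1 : part a c * d₁ * M ^ r = c := by
        rw [mul_assoc, ← hd]; exact hpm
      rw [h1, ← hb]

theorem card_Sols2 (Z X S n : ℕ) (R : ℝ) (hX : Nat.log 2 Z ^ 2 ≤ X)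
    (hS : 7 * Real.log X ≤ S) (hR : Real.sqrt (3 * Real.log X) ≤ R) (hn : 0 < n)
    (hR1 : n * Real.log 2 + Real.log X / (n + 1) ≤ R) :
    (Sols Z).card ≤ 2 * ((BB X R).card ^ 4 * ((S + 1) * (n * ((n + 1) * n)))) := by
  classical
  have H : ∀ v ∈ Sols Z, ∃ w : ℕ × ℕ × ℕ, ∃ t : ℕ, Dat w.1 w.2.1 w.2.2 t ∧
      v = (w.1 * t, w.2.1 * t, w.2.2 * t) := by
    intro v hv
    rw [Sols, mem_filter, mem_product, mem_product, mem_Icc, mem_Icc, mem_Icc] at hv
    obtain ⟨a, b, c, t, h, h1, h2, h3⟩ := exists_dat (by omega : 1 < v.1) (by omega : 1 < v.2.1) hv.2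
    exact ⟨(a, b, c), t, h, Prod.ext h1 (Prod.ext h2 h3)⟩
  choose! f hf using H
  set swap : ℕ × ℕ × ℕ → ℕ × ℕ × ℕ := fun w => (w.2.1, w.1, w.2.2) with hswap
  have hmaps : ∀ v ∈ Sols Z, f v ∈ GG X S n R ∪ (GG X S n R).image swap := by
    intro v hv
    obtain ⟨t, h, hvt⟩ := hf v hv
    rw [Sols, mem_filter, mem_product, mem_product, mem_Icc, mem_Icc, mem_Icc] at hv
    have hz : (f v).2.2 * t ≤ Z := by
      have := hv.1.2.2.2
      rw [hvt] at this
      exact this
    have hcX : (f v).2.2 ≤ X :=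
      (h.c_le.trans (Nat.pow_le_pow_left (Nat.log_mono_right hz) 2)).trans hX
    have hc0 : (0 : ℝ) < (f v).2.2 := by have := h.c0; positivity
    have hlog : Real.log (f v).2.2 ≤ Real.log X := Real.log_le_log hc0 (by exact_mod_cast hcX)
    have hlog' : ∀ m : ℕ, 0 < m → m ≤ (f v).2.2 → Real.log m ≤ Real.log X := by
      intro m hm hmc
      exact (Real.log_le_log (by exact_mod_cast hm) (by exact_mod_cast hmc)).trans hlog
    have hsS : (f v).1 + (f v).2.1 - (f v).2.2 ≤ S := by
      have h1 := h.s_le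
      have h2 : (((f v).1 + (f v).2.1 - (f v).2.2 : ℕ) : ℝ) ≤ S := by linarith
      exact_mod_cast h2
    have hRR : Real.sqrt (3 * Real.log (f v).2.2) ≤ R :=
      (Real.sqrt_le_sqrt (by linarith)).trans hR
    have hRb : ∀ m : ℕ, 0 < m → m ≤ (f v).2.2 →
        n * Real.log 2 + Real.log m / (n + 1) ≤ R := by
      intro m hm hmc
      have h1 : Real.log m / ((n : ℝ) + 1) ≤ Real.log X / ((n : ℝ) + 1) :=
        div_le_div_of_nonneg_right (hlog' m hm hmc) (by positivity)
      linarith
    have ha1 := h.a1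
    have hb1 := h.b1
    rw [mem_union]
    rcases h.small_rad with h1 | h1
    · left
      exact h.mem_GG hcX hsS hn (h1.trans hRR) (hRb _ (by omega) h.bc.le)
    · right
      rw [mem_image]
      refine ⟨((f v).2.1, (f v).1, (f v).2.2), ?_, rfl⟩
      exact h.symm.mem_GG hcX (by rw [add_comm]; exact hsS) hn (h1.trans hRR)
        (hRb _ (by omega) h.ac.le)
  have hinj : Set.InjOn f (Sols Z : Set (ℕ × ℕ × ℕ)) := by
    intro v hv v' hv' hvv
    obtain ⟨t, h, hvt⟩ := hf v hv
    obtain ⟨t', h', hvt'⟩ := hf v' hv'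
    rw [← hvv] at h' hvt'
    have h1 : t ^ ((f v).1 + (f v).2.1 - (f v).2.2) = t' ^ ((f v).1 + (f v).2.1 - (f v).2.2) := by
      have h2 := h.pow.trans h'.pow.symm
      refine Nat.eq_of_mul_eq_mul_left ?_ h2
      have := h.a1; have := h.b1
      positivity
    have h2 : t = t' := Nat.pow_left_injective (by have := h.s_pos; omega) h1
    rw [hvt, hvt', h2]
  have h3 := card_GG X S n R
  calc (Sols Z).card ≤ (GG X S n R ∪ (GG X S n R).image swap).card :=
        card_le_card_of_injOn f hmaps hinj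
    _ ≤ (GG X S n R).card + ((GG X S n R).image swap).card := card_union_le _ _
    _ ≤ (GG X S n R).card + (GG X S n R).card := by
        have := card_image_le (s := GG X S n R) (f := swap)
        omega
    _ = 2 * (GG X S n R).card := by ring
    _ ≤ _ := Nat.mul_le_mul_left 2 h3

/-- `card BB ≤ exp R * (E + 1) ^ w` if all the numbers up to `exp R` have at most `w` prime factors
and `E` bounds the exponents. -/
theorem card_BB2 {X E w : ℕ} {R : ℝ} (hE : Nat.log 2 X ≤ E)
    (hw : ∀ m : ℕ, 0 < m → (m : ℝ) ≤ Real.exp R → m.primeFactors.card ≤ w) :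
    ((BB X R).card : ℝ) ≤ Real.exp R * ((E : ℝ) + 1) ^ w := by
  classical
  set N : ℕ := ⌊Real.exp R⌋₊ with hN
  set rad : ℕ → ℕ := fun n => ∏ p ∈ n.primeFactors, p with hrad
  have hradpos : ∀ n, 0 < rad n := fun n => Finset.prod_pos fun p hp =>
    (Nat.prime_of_mem_primeFactors hp).pos
  have hradle : ∀ n ∈ BB X R, (rad n : ℝ) ≤ Real.exp R := by
    intro n hn
    rw [BB, mem_filter] at hn
    have h1 : Real.log (rad n) ≤ R := by
      have h2 : ((rad n : ℕ) : ℝ) = ∏ p ∈ n.primeFactors, (p : ℝ) := by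
        rw [hrad]; push_cast; rfl
      rw [h2, Real.log_prod]
      · exact hn.2
      · intro p hp
        have := (Nat.prime_of_mem_primeFactors hp).pos
        positivity
    have h3 : (0 : ℝ) < rad n := by exact_mod_cast hradpos n
    rw [← Real.exp_log h3]
    exact Real.exp_le_exp.2 h1
  have hmaps : ∀ n ∈ BB X R, rad n ∈ Icc 1 N := by
    intro n hn
    rw [mem_Icc]
    exact ⟨hradpos n, Nat.le_floor (hradle n hn)⟩
  have hpf : ∀ n, (rad n).primeFactors = n.primeFactors := fun n => Nat.primeFactors_prod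
    (fun p hp => Nat.prime_of_mem_primeFactors hp)
  have hfib : ∀ d ∈ Icc 1 N, ((BB X R).filter (fun n => rad n = d)).card ≤ (E + 1) ^ w := by
    intro d hd
    rw [mem_Icc] at hd
    have hdw : d.primeFactors.card ≤ w := by
      apply hw d (by omega)
      exact (Nat.le_floor_iff (Real.exp_pos R).le).1 hd.2
    have h1 : ((BB X R).filter (fun n => rad n = d)).card ≤
        (d.primeFactors.pi (fun _ => range (E + 1))).card := by
      apply card_le_card_of_injOn (fun n p _ => n.factorization p)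
      · intro n hn
        rw [mem_coe, mem_filter, BB, mem_filter, mem_Icc] at hn
        rw [mem_coe, mem_pi]
        intro p hp
        rw [mem_range]
        have hpp := Nat.prime_of_mem_primeFactors hp
        have h2 : n.factorization p ≤ Nat.log 2 X := by
          have h3 : 2 ^ n.factorization p ≤ X := by
            calc 2 ^ n.factorization p ≤ p ^ n.factorization p :=
                  Nat.pow_le_pow_left hpp.two_le _
              _ ≤ n := Nat.ordProj_le p (by omega)
              _ ≤ X := hn.1.1.2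
          exact Nat.le_log_of_pow_le (by norm_num) h3
        show n.factorization p < E + 1
        omega
      · intro n hn m hm hnm
        rw [mem_coe, mem_filter, BB, mem_filter, mem_Icc] at hn hm
        have hn0 : n ≠ 0 := by omega
        have hm0 : m ≠ 0 := by omega
        apply Nat.eq_of_factorization_eq hn0 hm0
        intro p
        by_cases hp : p ∈ d.primeFactors
        · exact congrFun (congrFun hnm p) hp
        · have h2 : p ∉ n.primeFactors := by rw [← hpf n, hn.2]; exact hp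
          have h3 : p ∉ m.primeFactors := by rw [← hpf m, hm.2]; exact hp
          rw [← Nat.support_factorization, Finsupp.notMem_support_iff] at h2 h3
          rw [h2, h3]
    refine h1.trans ?_
    rw [card_pi, prod_const, card_range]
    exact Nat.pow_le_pow_right (by omega) hdw
  have h1 : (BB X R).card ≤ (E + 1) ^ w * (Icc 1 N).card := by
    apply card_le_mul_card_image_of_maps_to hmaps
    intro d hd
    exact hfib d hd
  rw [Nat.card_Icc, Nat.add_sub_cancel] at h1
  have h2 : ((BB X R).card : ℝ) ≤ ((E : ℝ) + 1) ^ w * N := by exact_mod_cast h1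
  refine h2.trans ?_
  rw [mul_comm]
  exact mul_le_mul_of_nonneg_right (Nat.floor_le (Real.exp_pos R).le) (by positivity)

end Pool.Agent.W_4d3d39_h43
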