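import Mathlib
import Pool.Agent.W_4d3d39_h43.Sq2

/-!
The number of nontrivial solutions with `z ≤ Z` is at most `exp (C sqrt (log log Z))`.
-/

set_option autoImplicit false

namespace Pool.Agent.W_4d3d39_h43

open Finset

/-- the number of prime factors of `m ≤ exp V` -/
theorem omega_le {y V : ℝ} (hy : 2 ≤ y) (hV : V = y ^ 16) (hlog : Real.log V ≤ y) {m : ℕ}
    (hm0 : 0 < m) (hm : (m : ℝ) ≤ Real.exp V) :
    (m.primeFactors.card : ℝ) ≤ 5 * (V / Real.log V) := by
  have h1 := wigert hy hV hlog hm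
  have hV2 : (2 : ℝ) ^ 16 ≤ V := by rw [hV]; exact pow_le_pow_left₀ (by norm_num) hy 16
  have hV0 : 0 < V := by linarith [show (0 : ℝ) < 2 ^ 16 by norm_num]
  have hV1 : 1 < V := lt_of_lt_of_le (by norm_num) hV2
  have hlV : 0 < Real.log V := Real.log_pos hV1
  have hl2 : 0.6931471803 < Real.log 2 := Real.log_two_gt_d9
  have h2 : (2 : ℝ) ^ m.primeFactors.card ≤ m.divisors.card := by
    rw [Nat.card_divisors hm0.ne']
    push_cast
    rw [← Finset.prod_const]
    refine Finset.prod_le_prod (fun _ _ => by norm_num) fun p hp => ?_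
    have h3 : 0 < m.factorization p :=
      (Nat.prime_of_mem_primeFactors hp).factorization_pos_of_dvd hm0.ne'
        (Nat.dvd_of_mem_primeFactors hp)
    have h4 : (1 : ℝ) ≤ m.factorization p := by exact_mod_cast h3
    linarith
  have h3 : (m.primeFactors.card : ℝ) * Real.log 2 ≤ 3 * (V / Real.log V) := by
    rw [← Real.log_pow]
    have h4 := Real.log_le_log (by positivity) (h2.trans h1)
    rwa [Real.log_exp] at h4
  have h4 : 0 ≤ (m.primeFactors.card : ℝ) := Nat.cast_nonneg _
  nlinarith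

/-- The count in terms of `V`. -/
theorem count_V {y V : ℝ} (hy : 2 ≤ y) (hV : V = y ^ 16) (hlog : Real.log V ≤ y) {Z : ℕ}
    (hZ : 2 ≤ Z) (hZV : ((Nat.log 2 Z ^ 2 : ℕ) : ℝ) ≤ Real.exp (V ^ 2 / 9)) :
    ((Sols Z).card : ℝ) ≤ Real.exp (45 * V) := by
  have hy0 : 0 < y := by linarith
  have hV2 : (2 : ℝ) ^ 16 ≤ V := by rw [hV]; exact pow_le_pow_left₀ (by norm_num) hy 16
  have hV16 : (65536 : ℝ) ≤ V := by linarith [show (2 : ℝ) ^ 16 = 65536 by norm_num]
  have hV0 : 0 < V := by linarith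
  have hV1 : 1 < V := by linarith
  have hlV : 0 < Real.log V := Real.log_pos hV1
  have hl2 : 0.6931471803 < Real.log 2 := Real.log_two_gt_d9
  have hl2' : Real.log 2 < 0.6931471808 := Real.log_two_lt_d9
  set X : ℕ := Nat.log 2 Z ^ 2 with hX
  have hX1 : 1 ≤ X := Nat.one_le_pow _ _ (Nat.log_pos (by norm_num) hZ)
  have hXr : (0 : ℝ) < X := by exact_mod_cast hX1
  have hlX : Real.log X ≤ V ^ 2 / 9 := by
    have := Real.log_le_log hXr hZV
    rwa [Real.log_exp] at this
  set S : ℕ := ⌈V ^ 2 * (7 / 9)⌉₊ with hS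
  have hS1 : 7 * Real.log X ≤ S := by
    have := Nat.le_ceil (V ^ 2 * (7 / 9))
    linarith
  have hVV : 65536 * V ≤ V ^ 2 := by nlinarith
  have hS2 : (S : ℝ) + 1 ≤ V ^ 2 := by
    have := (Nat.ceil_lt_add_one (by positivity : (0 : ℝ) ≤ V ^ 2 * (7 / 9))).le
    linarith
  have hR1 : Real.sqrt (3 * Real.log X) ≤ V := by
    apply Real.sqrt_le_iff.mpr
    refine ⟨hV0.le, ?_⟩
    nlinarith
  set n : ℕ := ⌈V / 4⌉₊ with hn
  have hn1 : V / 4 ≤ n := Nat.le_ceil _
  have hn2 : (n : ℝ) ≤ V / 4 + 1 := (Nat.ceil_lt_add_one (by positivity)).le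
  have hnpos : 0 < n := by
    have : (0 : ℝ) < n := lt_of_lt_of_le (by positivity) hn1
    exact_mod_cast this
  have hR2 : n * Real.log 2 + Real.log X / (n + 1) ≤ V := by
    have h1 : (n : ℝ) * Real.log 2 ≤ (V / 4 + 1) * 0.7 :=
      mul_le_mul hn2 (by linarith) (by linarith) (by positivity)
    have h2 : Real.log X / ((n : ℝ) + 1) ≤ 4 / 9 * V := by
      rw [div_le_iff₀ (by positivity)]
      have h3 : 4 / 9 * V * (V / 4) ≤ 4 / 9 * V * ((n : ℝ) + 1) :=
        mul_le_mul_of_nonneg_left (by linarith) (by positivity)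
      nlinarith
    linarith
  have h1 := card_Sols2 Z X S n V le_rfl hS1 hR1 hnpos hR2
  -- the bound for `BB`
  set w : ℕ := ⌊5 * (V / Real.log V)⌋₊ with hw
  have hwle : (w : ℝ) ≤ 5 * (V / Real.log V) := Nat.floor_le (by positivity)
  have hBB : ((BB X V).card : ℝ) ≤ Real.exp (11 * V) := by
    have h2 := card_BB2 (X := X) (E := Nat.log 2 X) (w := w) (R := V) le_rfl (by
      intro m hm0 hm
      exact Nat.le_floor (omega_le hy hV hlog hm0 hm))
    refine h2.trans ?_
    have hE : (Nat.log 2 X : ℝ) + 1 ≤ V ^ 2 := by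
      have h3 : (Nat.log 2 X : ℝ) ≤ Real.log X / Real.log 2 := by
        have := Real.natLog_le_logb X 2
        rwa [Real.logb] at this
      have h4 : Real.log X / Real.log 2 ≤ V ^ 2 / 6 := by
        rw [div_le_iff₀ (by linarith)]
        nlinarith
      linarith
    have h5 : ((Nat.log 2 X : ℝ) + 1) ^ w ≤ Real.exp (10 * V) := by
      calc ((Nat.log 2 X : ℝ) + 1) ^ w ≤ (V ^ 2) ^ w :=
            pow_le_pow_left₀ (by positivity) hE w
        _ = Real.exp (2 * w * Real.log V) := by
            rw [← pow_mul, ← Real.exp_log (show 0 < V ^ (2 * w) by positivity), Real.log_pow]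
            push_cast
            rfl
        _ ≤ Real.exp (10 * V) := by
            apply Real.exp_le_exp.mpr
            have h6 : (w : ℝ) * Real.log V ≤ 5 * V := by
              have h7 := mul_le_mul_of_nonneg_right hwle hlV.le
              have h8 : 5 * (V / Real.log V) * Real.log V = 5 * V := by field_simp
              linarith
            linarith
    calc Real.exp V * ((Nat.log 2 X : ℝ) + 1) ^ w ≤ Real.exp V * Real.exp (10 * V) :=
          mul_le_mul_of_nonneg_left h5 (Real.exp_pos _).le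
      _ = Real.exp (11 * V) := by rw [← Real.exp_add]; congr 1; ring
  have h2 : ((Sols Z).card : ℝ) ≤
      2 * (((BB X V).card : ℝ) ^ 4 * (((S : ℝ) + 1) * (n * (((n : ℝ) + 1) * n)))) := by
    exact_mod_cast h1
  have hn3 : (n : ℝ) + 1 ≤ V := by linarith
  have hn4 : (n : ℝ) ≤ V := by linarith
  have h3 : ((BB X V).card : ℝ) ^ 4 ≤ Real.exp (44 * V) := by
    calc ((BB X V).card : ℝ) ^ 4 ≤ (Real.exp (11 * V)) ^ 4 :=
          pow_le_pow_left₀ (Nat.cast_nonneg _) hBB 4
      _ = Real.exp (44 * V) := by rw [← Real.exp_nat_mul]; congr 1; push_cast; ring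
  have h4 : ((S : ℝ) + 1) * (n * (((n : ℝ) + 1) * n)) ≤ V ^ 5 := by
    calc ((S : ℝ) + 1) * (n * (((n : ℝ) + 1) * n)) ≤ V ^ 2 * (V * (V * V)) := by gcongr
      _ = V ^ 5 := by ring
  have h5 : 2 * V ^ 5 ≤ Real.exp V := by
    have h6 : Real.log (2 * V ^ 5) ≤ V := by
      rw [Real.log_mul (by norm_num) (by positivity), Real.log_pow]
      push_cast
      have h7 : V = y ^ 15 * y := by rw [hV]; ring
      have h8 : (2 : ℝ) ^ 15 ≤ y ^ 15 := pow_le_pow_left₀ (by norm_num) hy 15
      have h9 : (2 : ℝ) ^ 15 * y ≤ V := by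
        rw [h7]; exact mul_le_mul_of_nonneg_right h8 hy0.le
      have h10 : (2 : ℝ) ^ 15 = 32768 := by norm_num
      rw [h10] at h9
      linarith
    calc 2 * V ^ 5 = Real.exp (Real.log (2 * V ^ 5)) := by rw [Real.exp_log (by positivity)]
      _ ≤ _ := Real.exp_le_exp.mpr h6
  calc ((Sols Z).card : ℝ) ≤ _ := h2
    _ ≤ 2 * (Real.exp (44 * V) * V ^ 5) := by gcongr
    _ = Real.exp (44 * V) * (2 * V ^ 5) := by ring
    _ ≤ Real.exp (44 * V) * Real.exp V := mul_le_mul_of_nonneg_left h5 (Real.exp_pos _).le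
    _ = Real.exp (45 * V) := by rw [← Real.exp_add]; congr 1; ring

/-- The number of nontrivial solutions with `z ≤ Z` is at most `exp (C sqrt (log log Z))`. -/
theorem count_sqrt : ∃ C : ℝ, ∀ Z : ℕ, 16 ≤ Z → ((Sols Z).card : ℝ) ≤
    Real.exp (C * Real.sqrt (Real.log (Real.log Z))) := by
  -- eventually `16 log y ≤ y`
  have hev : ∀ᶠ y : ℝ in Filter.atTop, 16 * Real.log y ≤ y ∧ 2 ≤ y := by
    have h1 := (Real.isLittleO_log_id_atTop).def (show (0 : ℝ) < 1 / 16 by norm_num)
    filter_upwards [h1, Filter.eventually_ge_atTop (2 : ℝ)] with y h2 h3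
    simp only [id, Real.norm_eq_abs] at h2
    rw [abs_of_nonneg (Real.log_nonneg (by linarith)), abs_of_nonneg (by linarith)] at h2
    exact ⟨by linarith, h3⟩
  obtain ⟨y0, hy0⟩ := Filter.eventually_atTop.1 hev
  set u0 : ℝ := max 3 ((max y0 1) ^ 32) with hu0
  set Z1 : ℕ := ⌈Real.exp (Real.exp u0)⌉₊ with hZ1
  refine ⟨max 270 (Real.log (((Sols Z1).card : ℝ) + 1)), fun Z hZ => ?_⟩
  have hZr : (16 : ℝ) ≤ Z := by exact_mod_cast hZ
  have hl2'' : 0.6931471803 < Real.log 2 := Real.log_two_gt_d9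
  have hlZ : 2.7725 < Real.log Z := by
    have h1 : Real.log 16 ≤ Real.log Z := Real.log_le_log (by norm_num) hZr
    have h2 : Real.log 16 = 4 * Real.log 2 := by
      rw [show (16 : ℝ) = 2 ^ 4 by norm_num, Real.log_pow]; norm_num
    linarith
  have he : Real.exp 1 < 2.7182818286 := Real.exp_one_lt_d9
  have hu1 : 1 < Real.log (Real.log Z) := by
    rw [Real.lt_log_iff_exp_lt (by linarith)]
    linarith
  set u : ℝ := Real.log (Real.log Z) with hu
  have hsq1 : 1 ≤ Real.sqrt u := Real.one_le_sqrt.mpr hu1.le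
  rcases le_or_gt Z Z1 with hcase | hcase
  · have h1 : ((Sols Z).card : ℝ) ≤ ((Sols Z1).card : ℝ) := by exact_mod_cast Sols_mono hcase
    calc ((Sols Z).card : ℝ) ≤ ((Sols Z1).card : ℝ) + 1 := by linarith
      _ = Real.exp (Real.log (((Sols Z1).card : ℝ) + 1)) := by rw [Real.exp_log (by positivity)]
      _ ≤ _ := by
          apply Real.exp_le_exp.mpr
          have h2 : 0 ≤ Real.log (((Sols Z1).card : ℝ) + 1) :=
            Real.log_nonneg (by have : (0 : ℝ) ≤ ((Sols Z1).card : ℝ) := Nat.cast_nonneg _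
                                linarith)
          calc Real.log (((Sols Z1).card : ℝ) + 1)
              ≤ Real.log (((Sols Z1).card : ℝ) + 1) * Real.sqrt u :=
                le_mul_of_one_le_right h2 hsq1
            _ ≤ _ := mul_le_mul_of_nonneg_right (le_max_right _ _) (by linarith)
  · -- large Z
    have huu0 : u0 ≤ u := by
      have h1 : Real.exp (Real.exp u0) < Z := by
        have h2 := Nat.le_ceil (Real.exp (Real.exp u0))
        have h3 : (Z1 : ℝ) < Z := by exact_mod_cast hcase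
        linarith
      have h2 : Real.exp u0 < Real.log Z := (Real.lt_log_iff_exp_lt (by linarith)).mpr h1
      exact ((Real.lt_log_iff_exp_lt (by linarith)).mpr h2).le
    have hu3 : 3 ≤ u := (le_max_left _ _).trans huu0
    have hu0' : 0 < u := by linarith
    set V : ℝ := 6 * Real.sqrt u with hV
    have hV0 : 0 < V := by positivity
    have hV2 : V ^ 2 = 36 * u := by
      rw [hV, mul_pow, Real.sq_sqrt hu0'.le]; norm_num
    set y : ℝ := V ^ (1 / 16 : ℝ) with hy
    have hVy : V = y ^ 16 := by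
      rw [hy, ← Real.rpow_natCast, ← Real.rpow_mul hV0.le]
      norm_num
    have hyy0 : y0 ≤ y := by
      have h1 : ((max y0 1) ^ 16) ^ 2 ≤ V ^ 2 := by
        have := (le_max_right 3 ((max y0 1) ^ 32)).trans huu0
        rw [hV2, ← pow_mul]
        norm_num
        linarith
      have h1' : (max y0 1) ^ 16 ≤ V := le_of_pow_le_pow_left₀ (by norm_num) hV0.le h1
      have h2 : max y0 1 ≤ y := by
        rw [hVy] at h1'
        exact le_of_pow_le_pow_left₀ (by norm_num) (by positivity) h1'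
      exact (le_max_left _ _).trans h2
    obtain ⟨h16, hy2⟩ := hy0 y hyy0
    have hlogV : Real.log V ≤ y := by
      rw [hVy, Real.log_pow]
      push_cast
      exact h16
    have hX : ((Nat.log 2 Z ^ 2 : ℕ) : ℝ) ≤ Real.exp (V ^ 2 / 9) := by
      have h1 : (Nat.log 2 Z : ℝ) ≤ Real.log Z / Real.log 2 := by
        have := Real.natLog_le_logb Z 2
        rwa [Real.logb] at this
      have h2 : Real.log Z / Real.log 2 ≤ 2 * Real.log Z := by
        rw [div_le_iff₀ (by linarith)]
        nlinarith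
      have h3 : Real.exp u = Real.log Z := by rw [hu, Real.exp_log (by linarith)]
      have h4 : (4 : ℝ) ≤ Real.exp u := by
        have := Real.add_one_le_exp u
        linarith
      push_cast
      calc (Nat.log 2 Z : ℝ) ^ 2 ≤ (2 * Real.exp u) ^ 2 := by
            apply pow_le_pow_left₀ (Nat.cast_nonneg _)
            rw [h3]; linarith
        _ = 4 * Real.exp u ^ 2 := by ring
        _ ≤ Real.exp u * Real.exp u ^ 2 := by gcongr
        _ = Real.exp (3 * u) := by
            rw [← pow_succ', ← Real.exp_nat_mul]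
            norm_num
        _ ≤ Real.exp (V ^ 2 / 9) := by
            apply Real.exp_le_exp.mpr
            rw [hV2]; linarith
    have h1 := count_V hy2 hVy hlogV (by omega : 2 ≤ Z) hX
    refine h1.trans (Real.exp_le_exp.mpr ?_)
    calc 45 * V = 270 * Real.sqrt u := by rw [hV]; ring
      _ ≤ _ := mul_le_mul_of_nonneg_right (le_max_left _ _) (by linarith)

end Pool.Agent.W_4d3d39_h43
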